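import Pool.Agent.Lib.MP_4abaeb_an.Limit

/-!
# The choice of the weights
-/

open Filter Set
open scoped Topology

noncomputable section

namespace Pool.Agent.MP_4abaeb_an

theorem exists_threshold {b : ℕ → ℝ} (hb : ∀ k, ∃ K, 0 ≤ K ∧ ∀ j : ℕ, b j ≤ K * rr k ^ j) (k : ℕ) :
    ∃ N : ℕ, ∀ i, N ≤ i → b i ≤ ((1 / ((k : ℝ) + 2)) ^ 2) ^ i := by
  have h0 : (0 : ℝ) < (1 / ((k : ℝ) + 2)) ^ 2 := by positivity
  obtain ⟨k', hk'⟩ := (tendsto_rr.eventually (gt_mem_nhds (half_pos h0))).exists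
  obtain ⟨K, hK, hKb⟩ := hb k'
  have h1 : Tendsto (fun i : ℕ => K * (1 / 2 : ℝ) ^ i) atTop (𝓝 (K * 0)) :=
    (tendsto_pow_atTop_nhds_zero_of_lt_one (by norm_num) (by norm_num)).const_mul K
  rw [mul_zero] at h1
  obtain ⟨N, hN⟩ := eventually_atTop.1 (h1.eventually (gt_mem_nhds one_pos))
  refine ⟨N, fun i hi => ?_⟩
  calc b i ≤ K * rr k' ^ i := hKb i
    _ ≤ K * ((1 / ((k : ℝ) + 2)) ^ 2 / 2) ^ i :=
        mul_le_mul_of_nonneg_left (pow_le_pow_left₀ (rr_pos k').le hk'.le i) hK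
    _ = (K * (1 / 2) ^ i) * ((1 / ((k : ℝ) + 2)) ^ 2) ^ i := by
        rw [div_eq_mul_one_div _ (2 : ℝ), mul_pow]; ring
    _ ≤ 1 * ((1 / ((k : ℝ) + 2)) ^ 2) ^ i :=
        mul_le_mul_of_nonneg_right (hN i hi).le (by positivity)
    _ = _ := one_mul _

/-- The weights. -/
theorem exists_weights {b : ℕ → ℝ} (hb0 : ∀ j, 0 ≤ b j)
    (hb : ∀ k, ∃ K, 0 ≤ K ∧ ∀ j : ℕ, b j ≤ K * rr k ^ j) :
    ∃ ω : ℕ → ℝ, (∀ j, 0 < ω j) ∧ Antitone ω ∧ Tendsto ω atTop (𝓝 0) ∧
      ∃ C, 0 ≤ C ∧ ∀ j, b j ≤ C * (1 / 2) ^ j * ∏ i ∈ Finset.range j, ω i := by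
  classical
  choose N hN using exists_threshold hb
  let κ : ℕ → ℕ := fun i => Nat.findGreatest (fun k => k = 0 ∨ N k ≤ i) i
  have hκmono : Monotone κ := by
    intro i i' h
    refine Nat.findGreatest_mono ?_ h
    intro k hk
    rcases hk with hk | hk
    · exact Or.inl hk
    · exact Or.inr (hk.trans h)
  have hκlarge : ∀ K, ∀ i, max (N K) K ≤ i → K ≤ κ i := by
    intro K i hi
    exact Nat.le_findGreatest ((le_max_right _ _).trans hi) (Or.inr ((le_max_left _ _).trans hi))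
  have hκspec : ∀ i, κ i ≠ 0 → N (κ i) ≤ i := by
    intro i hi
    have h1 : (κ i = 0 ∨ N (κ i) ≤ i) :=
      Nat.findGreatest_spec (P := fun k => k = 0 ∨ N k ≤ i) (Nat.zero_le i) (Or.inl rfl)
    rcases h1 with h1 | h1
    · exact absurd h1 hi
    · exact h1
  set ω : ℕ → ℝ := fun i => 1 / ((κ i : ℝ) + 2) with hω
  have hωpos : ∀ j, 0 < ω j := fun j => by simp only [hω]; positivity
  have hωanti : Antitone ω := by
    intro i j h
    simp only [hω]
    have : (κ i : ℝ) ≤ κ j := by exact_mod_cast hκmono h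
    gcongr
  have hωhalf : ∀ j, ω j ≤ 1 / 2 := by
    intro j
    simp only [hω]
    have : (0 : ℝ) ≤ κ j := by positivity
    rw [div_le_div_iff₀ (by positivity) (by norm_num)]
    linarith
  have hκtend : Tendsto κ atTop atTop := by
    refine tendsto_atTop.2 fun K => ?_
    filter_upwards [eventually_ge_atTop (max (N K) K)] with i hi using hκlarge K i hi
  have hωtend : Tendsto ω atTop (𝓝 0) := by
    have h1 : Tendsto (fun i => ((κ i : ℝ) + 2)) atTop atTop :=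
      tendsto_atTop_add_const_right _ _ (tendsto_natCast_atTop_atTop.comp hκtend)
    simp only [hω, one_div]
    exact h1.inv_tendsto_atTop
  have hprodpos : ∀ j, 0 < ∏ i ∈ Finset.range j, ω i := fun j => Finset.prod_pos fun i _ => hωpos i
  have hprod : ∀ j, ω j ^ j ≤ ∏ i ∈ Finset.range j, ω i := by
    intro j
    calc ω j ^ j = ∏ _i ∈ Finset.range j, ω j := by simp
      _ ≤ _ := Finset.prod_le_prod (fun i _ => (hωpos j).le) fun i hi =>
          hωanti (Finset.mem_range.1 hi).le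
  have hlarge : ∀ j, κ j ≠ 0 → b j ≤ (1 / 2) ^ j * ∏ i ∈ Finset.range j, ω i := by
    intro j hj
    have h1 : b j ≤ (ω j ^ 2) ^ j := hN (κ j) j (hκspec j hj)
    calc b j ≤ (ω j ^ 2) ^ j := h1
      _ = ω j ^ j * ω j ^ j := by rw [← pow_mul, two_mul, pow_add]
      _ ≤ (1 / 2) ^ j * ∏ i ∈ Finset.range j, ω i :=
          mul_le_mul (pow_le_pow_left₀ (hωpos j).le (hωhalf j) j) (hprod j)
            (pow_nonneg (hωpos j).le j) (by positivity)
  set J := max (N 1) 1 with hJ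
  set C : ℝ := 1 + ∑ j ∈ Finset.range J, b j / ((1 / 2) ^ j * ∏ i ∈ Finset.range j, ω i) with hC
  have hterm : ∀ j, 0 ≤ b j / ((1 / 2) ^ j * ∏ i ∈ Finset.range j, ω i) := fun j =>
    div_nonneg (hb0 j) (mul_nonneg (by positivity) (hprodpos j).le)
  have hC1 : 1 ≤ C := by
    rw [hC]
    have := Finset.sum_nonneg fun j (_ : j ∈ Finset.range J) => hterm j
    linarith
  refine ⟨ω, hωpos, hωanti, hωtend, C, by linarith, fun j => ?_⟩
  have hp : (0 : ℝ) < (1 / 2) ^ j * ∏ i ∈ Finset.range j, ω i :=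
    mul_pos (by positivity) (hprodpos j)
  rw [mul_assoc]
  rcases lt_or_ge j J with h | h
  · have h1 : b j / ((1 / 2) ^ j * ∏ i ∈ Finset.range j, ω i) ≤ C := by
      rw [hC]
      have := Finset.single_le_sum (fun j (_ : j ∈ Finset.range J) => hterm j)
        (Finset.mem_range.2 h)
      linarith
    rwa [div_le_iff₀ hp] at h1
  · have h1 : κ j ≠ 0 := by
      have := hκlarge 1 j h
      omega
    have h2 := hlarge j h1
    nlinarith

end Pool.Agent.MP_4abaeb_an
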