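import Pool.Agent.Lib.MP_4abaeb_an.Op
import Pool.Agent.Lib.MP_4abaeb_an.Weights

/-!
# The data of the construction: the vector, the weights, and the exponential
-/

open Complex Filter Set Polynomial
open scoped Topology ENNReal

noncomputable section

namespace Pool.Agent.MP_4abaeb_an

/-- Polynomials with coefficients in a countable dense set. -/
def polyOf (s : Σ N : ℕ, (Fin N → ℕ)) : ℂ[X] :=
  ∑ i, C (TopologicalSpace.denseSeq ℂ (s.2 i)) * X ^ (i : ℕ)

/-- A sequence of polynomials whose images are dense, each value occurring infinitely often. -/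
theorem exists_poly_seq : ∃ q : ℕ → ℂ[X], ∀ (Λ : ℂ[X] →ₗ[ℂ] H2) (p : ℂ[X]) (ε : ℝ), 0 < ε →
    ∀ M : ℕ, ∃ l, M ≤ l ∧ ‖Λ (q l) - Λ p‖ < ε := by
  obtain ⟨e, he⟩ := exists_surjective_nat (Σ N : ℕ, (Fin N → ℕ))
  refine ⟨fun l => polyOf (e l.unpair.1), ?_⟩
  intro Λ p ε hε M
  set N := p.natDegree + 1 with hN
  set S : ℝ := ∑ i : Fin N, ‖Λ (X ^ (i : ℕ))‖ with hS
  have hS0 : 0 ≤ S := Finset.sum_nonneg fun i _ => norm_nonneg _
  set δ : ℝ := ε / (S + 1) with hδ
  have hδ0 : 0 < δ := by positivity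
  have hc : ∀ i : Fin N, ∃ k : ℕ, dist (p.coeff i) (TopologicalSpace.denseSeq ℂ k) < δ := fun i =>
    (TopologicalSpace.denseRange_denseSeq ℂ).exists_dist_lt (p.coeff i) hδ0
  choose c hc using hc
  obtain ⟨a, ha⟩ := he ⟨N, c⟩
  refine ⟨Nat.pair a M, Nat.right_le_pair a M, ?_⟩
  simp only [Nat.unpair_pair, ha]
  change ‖Λ (∑ i : Fin N, C (TopologicalSpace.denseSeq ℂ (c i)) * X ^ (i : ℕ)) - Λ p‖ < ε
  have hp : p = ∑ i : Fin N, C (p.coeff i) * X ^ (i : ℕ) := by
    conv_lhs => rw [p.as_sum_range_C_mul_X_pow]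
    rw [← Fin.sum_univ_eq_sum_range (fun i => C (p.coeff i) * X ^ i)]
  have h1 : Λ (∑ i : Fin N, C (TopologicalSpace.denseSeq ℂ (c i)) * X ^ (i : ℕ)) - Λ p =
      ∑ i : Fin N, (TopologicalSpace.denseSeq ℂ (c i) - p.coeff i) • Λ (X ^ (i : ℕ)) := by
    conv_lhs => rw [hp]
    rw [← map_sub, ← Finset.sum_sub_distrib, map_sum]
    refine Finset.sum_congr rfl fun i _ => ?_
    rw [← sub_mul, ← C_sub, ← smul_eq_C_mul, map_smul]
  rw [h1]
  calc ‖∑ i : Fin N, (TopologicalSpace.denseSeq ℂ (c i) - p.coeff i) • Λ (X ^ (i : ℕ))‖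
      ≤ ∑ i : Fin N, ‖(TopologicalSpace.denseSeq ℂ (c i) - p.coeff i) • Λ (X ^ (i : ℕ))‖ :=
        norm_sum_le _ _
    _ ≤ ∑ i : Fin N, δ * ‖Λ (X ^ (i : ℕ))‖ := by
        refine Finset.sum_le_sum fun i _ => ?_
        rw [norm_smul]
        apply mul_le_mul_of_nonneg_right _ (norm_nonneg _)
        have := hc i
        rw [dist_comm, dist_eq_norm] at this
        exact this.le
    _ = δ * S := by rw [Finset.mul_sum]
    _ < ε := by
        rw [hδ, div_mul_eq_mul_div, div_lt_iff₀ (by positivity)]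
        nlinarith

/-- The exponential series for the limit double sequence. -/
theorem exp_series {G : ℕ → ℂ →₀ ℂ} {f : ℕ → ℕ → ℂ}
    (hf : ∀ n j, Tendsto (fun k => pr (ker n j) (G k)) atTop (𝓝 (f n j)))
    (h1 : ∀ k n j : ℕ, ((n : ℝ) + 1) * ‖f n j - pr (ker n j) (G k)‖ ≤ 2 * (1 / 2) ^ k * rr k ^ j)
    (h2 : ∀ k, ∃ K, 0 ≤ K ∧ ∀ n j : ℕ, ((n : ℝ) + 1) * ‖f n j‖ ≤ K * rr k ^ j) (n j : ℕ) :
    HasSum (fun i : ℕ => ((i.factorial : ℂ))⁻¹ * f n (j + i)) (f (n + 1) j) := by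
  obtain ⟨K, hK, hKf⟩ := h2 0
  have hone : ∀ x : ℝ, 0 ≤ x → x ≤ ((n : ℝ) + 1) * x := by
    intro x hx
    have : (0 : ℝ) ≤ n := by positivity
    nlinarith
  have hrr : ∀ k i, rr k ^ i ≤ 1 := fun k i => pow_le_one₀ (rr_pos k).le (rr_le_one k)
  have hfb : ∀ i, ‖f n i‖ ≤ K := fun i =>
    (hone _ (norm_nonneg _)).trans ((hKf n i).trans (by nlinarith [hrr 0 i]))
  have hgb : ∀ k i, ‖pr (ker n i) (G k)‖ ≤ K + 2 := by
    intro k i
    have h3 : ‖f n i - pr (ker n i) (G k)‖ ≤ 2 := by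
      refine (hone _ (norm_nonneg _)).trans ((h1 k n i).trans ?_)
      have h4 : (1 / 2 : ℝ) ^ k ≤ 1 := pow_le_one₀ (by norm_num) (by norm_num)
      have h5 := hrr k i
      have h6 : 0 ≤ rr k ^ i := pow_nonneg (rr_pos k).le i
      have h7 : (0 : ℝ) ≤ (1 / 2) ^ k := by positivity
      nlinarith
    have h4 := norm_sub_norm_le (pr (ker n i) (G k)) (f n i)
    rw [norm_sub_rev] at h4
    linarith [hfb i]
  have hsumfact : Summable fun i : ℕ => ((i.factorial : ℝ))⁻¹ * (K + 2) := by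
    have := (Real.summable_pow_div_factorial 1).mul_right (K + 2)
    simpa using this
  have hsummable : Summable fun i : ℕ => ((i.factorial : ℂ))⁻¹ * f n (j + i) := by
    refine Summable.of_norm_bounded hsumfact fun i => ?_
    rw [norm_mul, norm_inv, RCLike.norm_natCast]
    exact mul_le_mul_of_nonneg_left ((hfb _).trans (by linarith)) (by positivity)
  have hker : ∀ k, HasSum (fun i : ℕ => ((i.factorial : ℂ))⁻¹ * pr (ker n (j + i)) (G k))
      (pr (ker (n + 1) j) (G k)) := by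
    intro k
    simp only [pr_apply, Finset.mul_sum]
    refine hasSum_sum fun μ _ => ?_
    have h3 : HasSum (fun i : ℕ => ((i.factorial : ℂ))⁻¹ * μ ^ i) (cexp μ) := by
      have := NormedSpace.exp_series_hasSum_exp' (𝕂 := ℂ) μ
      rw [← Complex.exp_eq_exp_ℂ] at this
      simpa using this
    have h4 := (h3.mul_left (G k μ * μ ^ j * cexp (n * μ)))
    have h5 : G k μ * ker (n + 1) j μ = G k μ * μ ^ j * cexp (n * μ) * cexp μ := by
      rw [ker, mul_assoc _ (cexp _) (cexp _), ← Complex.exp_add]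
      push_cast
      ring_nf
    rw [h5]
    have h6 : (fun i : ℕ => ((i.factorial : ℂ))⁻¹ * (G k μ * ker n (j + i) μ)) =
        fun i : ℕ => G k μ * μ ^ j * cexp (n * μ) * (((i.factorial : ℂ))⁻¹ * μ ^ i) := by
      funext i
      rw [ker, pow_add]; ring
    rw [h6]
    exact h4
  have hlim : Tendsto (fun k => ∑' i : ℕ, ((i.factorial : ℂ))⁻¹ * pr (ker n (j + i)) (G k)) atTop
      (𝓝 (∑' i : ℕ, ((i.factorial : ℂ))⁻¹ * f n (j + i))) := by
    refine tendsto_tsum_of_dominated_convergence hsumfact (fun i => (hf n (j + i)).const_mul _)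
      (Eventually.of_forall fun k i => ?_)
    rw [norm_mul, norm_inv, RCLike.norm_natCast]
    exact mul_le_mul_of_nonneg_left (hgb k _) (by positivity)
  have hlim2 : Tendsto (fun k => ∑' i : ℕ, ((i.factorial : ℂ))⁻¹ * pr (ker n (j + i)) (G k)) atTop
      (𝓝 (f (n + 1) j)) := by
    simp only [(hker _).tsum_eq]
    exact hf (n + 1) j
  rw [← tendsto_nhds_unique hlim hlim2]
  exact hsummable.hasSum

end Pool.Agent.MP_4abaeb_an
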