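import Mathlib

/-!
# Hypercyclic and quasinilpotent operators
-/

open Filter
open scoped Topology

namespace Pool.Agent.MP_4abaeb_an

variable {X : Type*} [NormedAddCommGroup X] [NormedSpace ℂ X]

/-- `S` is hypercyclic: some orbit `{S ^ n x : n = 0, 1, 2, …}` is dense. -/
def IsHypercyclic (S : X →L[ℂ] X) : Prop := ∃ x : X, DenseRange fun n : ℕ => (S ^ n) x

/-- `T` is quasinilpotent: `‖T ^ n‖ ^ (1 / n)` tends to zero. -/
def IsQuasinilpotent (T : X →L[ℂ] X) : Prop :=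
  Tendsto (fun n : ℕ => ‖T ^ n‖ ^ (1 / (n : ℝ))) atTop (𝓝 0)

end Pool.Agent.MP_4abaeb_an
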