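import Mathlib

/-!
# Approximation of exponentials by exponentials with frequencies in a small open set
-/

open Complex Filter Set
open scoped Topology InnerProductSpace ENNReal

noncomputable section

namespace Pool.Agent.MP_4abaeb_an

/-- The Hilbert space of square summable families indexed by `ℕ × ℕ`. -/
abbrev H2 : Type := lp (fun _ : ℕ × ℕ => ℂ) 2

/-- Frequencies with negative real part and modulus less than `ρ`. -/
def Om (ρ : ℝ) : Set ℂ := {μ | μ.re < 0 ∧ ‖μ‖ < ρ}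

theorem isOpen_Om (ρ : ℝ) : IsOpen (Om ρ) :=
  (isOpen_lt continuous_re continuous_const).inter (isOpen_lt continuous_norm continuous_const)

theorem convex_Om (ρ : ℝ) : Convex ℝ (Om ρ) := by
  have h1 : Convex ℝ {μ : ℂ | μ.re < 0} := convex_halfSpace_re_lt 0
  have h2 : Convex ℝ (Metric.ball (0 : ℂ) ρ) := convex_ball 0 ρ
  have h3 : Om ρ = {μ : ℂ | μ.re < 0} ∩ Metric.ball (0 : ℂ) ρ := by
    ext μ; simp [Om]
  rw [h3]
  exact h1.inter h2

/-- The entries of the exponentials. -/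
def ent (ρ : ℝ) (μ : ℂ) (p : ℕ × ℕ) : ℂ := (p.1 + 1) * cexp (p.1 * μ) * (μ / ρ) ^ p.2

theorem norm_ent (ρ : ℝ) (hρ : 0 < ρ) (μ : ℂ) (p : ℕ × ℕ) :
    ‖ent ρ μ p‖ = ((p.1 + 1) * Real.exp μ.re ^ p.1) * (‖μ‖ / ρ) ^ p.2 := by
  rw [ent, norm_mul, norm_mul, norm_pow, norm_div, norm_real, Real.norm_of_nonneg hρ.le,
    Complex.norm_exp, ← Real.exp_nat_mul]
  congr 2
  · have : ((p.1 : ℂ) + 1) = ((p.1 + 1 : ℝ) : ℂ) := by push_cast; ring
    rw [this, norm_real, Real.norm_of_nonneg (by positivity)]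
  · congr 1
    have : ((p.1 : ℂ) * μ) = (((p.1 : ℝ) : ℂ) * μ) := by push_cast; ring
    rw [this, re_ofReal_mul]

theorem summable_majorant {q s : ℝ} (hq0 : 0 ≤ q) (hq : q < 1) (hs0 : 0 ≤ s) (hs : s < 1) :
    Summable fun p : ℕ × ℕ => (((p.1 : ℝ) + 1) * q ^ p.1) * s ^ p.2 := by
  have h1 : Summable fun n : ℕ => ((n : ℝ) + 1) * q ^ n := by
    have h2 : Summable fun n : ℕ => (n : ℝ) ^ 1 * q ^ n :=
      summable_pow_mul_geometric_of_norm_lt_one 1 (by rwa [Real.norm_of_nonneg hq0])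
    have h3 : Summable fun n : ℕ => q ^ n := summable_geometric_of_lt_one hq0 hq
    refine (h2.add h3).congr fun n => ?_
    ring
  have h4 : Summable fun n : ℕ => s ^ n := summable_geometric_of_lt_one hs0 hs
  exact h1.mul_of_nonneg h4 (fun n => by positivity) (fun n => by positivity)

theorem exp_re_lt_one {μ : ℂ} (h : μ.re < 0) : Real.exp μ.re < 1 := by
  rw [Real.exp_lt_one_iff]; exact h

theorem memlp_ent {ρ : ℝ} (hρ : 0 < ρ) {μ : ℂ} (h : μ ∈ Om ρ) : Memℓp (ent ρ μ) 2 := by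
  have h1 : Summable fun p : ℕ × ℕ => ‖ent ρ μ p‖ := by
    simp only [norm_ent ρ hρ]
    exact summable_majorant (Real.exp_pos _).le (exp_re_lt_one h.1) (by positivity)
      (by rw [div_lt_one hρ]; exact h.2)
  have h2 : Memℓp (ent ρ μ) 1 := by
    rw [memℓp_gen_iff (by norm_num)]
    simpa using h1
  exact h2.of_exponent_ge (by norm_num)

open Classical in
/-- The exponentials as vectors. -/
def vec (ρ : ℝ) (μ : ℂ) : H2 :=
  if h : 0 < ρ ∧ μ ∈ Om ρ then ⟨ent ρ μ, memlp_ent h.1 h.2⟩ else 0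

theorem vec_apply {ρ : ℝ} (hρ : 0 < ρ) {μ : ℂ} (h : μ ∈ Om ρ) (p : ℕ × ℕ) :
    vec ρ μ p = ent ρ μ p := by
  rw [vec, dif_pos ⟨hρ, h⟩]

theorem differentiableOn_inner_vec {ρ : ℝ} (hρ : 0 < ρ) (y : H2) :
    DifferentiableOn ℂ (fun μ => ⟪y, vec ρ μ⟫_ℂ) (Om ρ) := by
  intro μ₀ hμ₀
  set q := Real.exp (μ₀.re / 2) with hq
  set r := (‖μ₀‖ + ρ) / 2 with hr
  have hr1 : ‖μ₀‖ < r := by rw [hr]; linarith [hμ₀.2]
  have hr2 : r < ρ := by rw [hr]; linarith [hμ₀.2]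
  have hr0 : 0 ≤ r := (norm_nonneg _).trans hr1.le
  set V : Set ℂ := {μ | μ.re < μ₀.re / 2} ∩ {μ | ‖μ‖ < r} with hV
  have hVo : IsOpen V :=
    (isOpen_lt continuous_re continuous_const).inter (isOpen_lt continuous_norm continuous_const)
  have hVΩ : V ⊆ Om ρ := fun μ hμ => ⟨lt_trans hμ.1 (by linarith [hμ₀.1]), lt_trans hμ.2 hr2⟩
  have hμV : μ₀ ∈ V := ⟨by change μ₀.re < μ₀.re / 2; linarith [hμ₀.1], hr1⟩
  have hq1 : q < 1 := by rw [hq, Real.exp_lt_one_iff]; linarith [hμ₀.1]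
  have key : DifferentiableOn ℂ (fun μ => ∑' p : ℕ × ℕ, ⟪y p, ent ρ μ p⟫_ℂ) V := by
    refine differentiableOn_tsum_of_summable_norm (u := fun p : ℕ × ℕ =>
      ‖y‖ * ((((p.1 : ℝ) + 1) * q ^ p.1) * (r / ρ) ^ p.2)) ?_ ?_ hVo ?_
    · exact (summable_majorant (Real.exp_pos _).le hq1 (by positivity)
        (by rw [div_lt_one hρ]; exact hr2)).mul_left _
    · intro p
      have h1 : Differentiable ℂ fun μ => ent ρ μ p := by
        unfold ent; fun_prop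
      simp only [RCLike.inner_apply]
      exact (h1.mul_const _).differentiableOn
    · intro p μ hμ
      refine (norm_inner_le_norm _ _).trans ?_
      rw [norm_ent ρ hρ]
      have h2 : Real.exp μ.re ≤ q := Real.exp_le_exp.2 (le_of_lt hμ.1)
      have h3 : ‖μ‖ ≤ r := le_of_lt hμ.2
      have h4 : ‖y p‖ ≤ ‖y‖ := lp.norm_apply_le_norm (by norm_num) y p
      gcongr
  have heq : EqOn (fun μ => ⟪y, vec ρ μ⟫_ℂ) (fun μ => ∑' p : ℕ × ℕ, ⟪y p, ent ρ μ p⟫_ℂ) V := by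
    intro μ hμ
    simp only
    rw [lp.inner_eq_tsum]
    congr 1
    funext p
    rw [vec_apply hρ (hVΩ hμ)]
  have h5 : DifferentiableAt ℂ (fun μ => ⟪y, vec ρ μ⟫_ℂ) μ₀ :=
    (key.congr heq).differentiableAt (hVo.mem_nhds hμV)
  exact h5.differentiableWithinAt

/-- The exponentials with frequencies in a nonempty open set span a dense subspace. -/
theorem vec_mem_closure {ρ : ℝ} (hρ : 0 < ρ) {U : Set ℂ} (hU : IsOpen U) (hne : U.Nonempty)
    (hUΩ : U ⊆ Om ρ) {lam : ℂ} (hl : lam ∈ Om ρ) :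
    vec ρ lam ∈ (Submodule.span ℂ (vec ρ '' U)).topologicalClosure := by
  rw [← Submodule.orthogonal_orthogonal_eq_closure, Submodule.mem_orthogonal]
  intro y hy
  obtain ⟨μ₀, hμ₀⟩ := hne
  have hana : AnalyticOnNhd ℂ (fun μ => ⟪y, vec ρ μ⟫_ℂ) (Om ρ) :=
    (differentiableOn_inner_vec hρ y).analyticOnNhd (isOpen_Om ρ)
  have hzero : (fun μ => ⟪y, vec ρ μ⟫_ℂ) =ᶠ[𝓝 μ₀] 0 := by
    filter_upwards [hU.mem_nhds hμ₀] with μ hμ
    have h1 := (Submodule.mem_orthogonal _ _).1 hy (vec ρ μ)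
      (Submodule.subset_span ⟨μ, hμ, rfl⟩)
    change ⟪y, vec ρ μ⟫_ℂ = 0
    rw [← inner_conj_symm, h1, map_zero]
  exact hana.eqOn_zero_of_preconnected_of_eventuallyEq_zero (convex_Om ρ).isPreconnected
    (hUΩ hμ₀) hzero hl

end Pool.Agent.MP_4abaeb_an
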