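import Pool.Agent.Lib.MP_4abaeb_an.Vector
import Pool.Agent.Lib.MP_4abaeb_an.Defs

/-!
# The counterexample
-/

open Complex Filter Set Polynomial
open scoped Topology ENNReal

noncomputable section

namespace Pool.Agent.MP_4abaeb_an

section closure

variable {H : Type*} [NormedAddCommGroup H] [InnerProductSpace ℂ H] {T : H →L[ℂ] H} {y : H}

/-- The closed cyclic subspace. -/
def XX (T : H →L[ℂ] H) (y : H) : Submodule ℂ H :=
  (Submodule.span ℂ (range fun k : ℕ => (T ^ k) y)).topologicalClosure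

theorem isClosed_XX (T : H →L[ℂ] H) (y : H) : IsClosed (XX T y : Set H) :=
  Submodule.isClosed_topologicalClosure _

theorem pow_mem_XX (k : ℕ) : (T ^ k) y ∈ XX T y :=
  Submodule.le_topologicalClosure _ (Submodule.subset_span ⟨k, rfl⟩)

theorem mem_XX : y ∈ XX T y := by
  have := pow_mem_XX (T := T) (y := y) 0
  simpa using this

theorem XX_le {p : Submodule ℂ H} (hp : IsClosed (p : Set H)) (h : ∀ k : ℕ, (T ^ k) y ∈ p) :
    XX T y ≤ p := by
  apply Submodule.topologicalClosure_minimal _ _ hp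
  rw [Submodule.span_le]
  rintro _ ⟨k, rfl⟩
  exact h k

theorem T_mem_XX {x : H} (hx : x ∈ XX T y) : T x ∈ XX T y := by
  have h : XX T y ≤ (XX T y).comap T.toLinearMap := by
    refine XX_le ((isClosed_XX T y).preimage T.continuous) fun k => ?_
    change T ((T ^ k) y) ∈ XX T y
    have h2 : T ((T ^ k) y) = (T ^ (k + 1)) y := by rw [pow_succ']; rfl
    rw [h2]
    exact pow_mem_XX (k + 1)
  exact h hx

end closure

section general

variable {H : Type*} [NormedAddCommGroup H] [InnerProductSpace ℂ H] [CompleteSpace H]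
  {T : H →L[ℂ] H} {y : H} {Y : Type*} [NormedAddCommGroup Y] [InnerProductSpace ℂ Y]
  [CompleteSpace Y] {J : Y →L[ℂ] H} {S : Y →L[ℂ] Y}

omit [CompleteSpace H] [CompleteSpace Y] in
theorem J_pow (hJS : ∀ x, J (S x) = T (J x)) (k : ℕ) (x : Y) : J ((S ^ k) x) = (T ^ k) (J x) := by
  induction k with
  | zero => rfl
  | succ k ih =>
    rw [pow_succ', pow_succ']
    change J (S ((S ^ k) x)) = T ((T ^ k) (J x))
    rw [hJS, ih]

omit [CompleteSpace H] [CompleteSpace Y] in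
theorem J_one_add_pow (hJS : ∀ x, J (S x) = T (J x)) (k : ℕ) (x : Y) :
    J (((1 + S) ^ k) x) = ((1 + T) ^ k) (J x) := by
  refine J_pow (fun x => ?_) k x
  change J (x + S x) = J x + T (J x)
  rw [map_add, hJS]

omit [CompleteSpace H] [CompleteSpace Y] in
theorem norm_pow_le_of_J (hJ : ∀ x, ‖J x‖ = ‖x‖) (hJS : ∀ x, J (S x) = T (J x)) (k : ℕ) :
    ‖S ^ k‖ ≤ ‖T ^ k‖ := by
  refine ContinuousLinearMap.opNorm_le_bound _ (norm_nonneg _) fun x => ?_
  rw [← hJ, ← hJ x, J_pow hJS]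
  exact (T ^ k).le_opNorm _

theorem J_exp (hJS : ∀ x, J (S x) = T (J x)) (x : Y) :
    J (NormedSpace.exp S x) = NormedSpace.exp T (J x) := by
  have h1 : HasSum (fun i : ℕ => ((i.factorial : ℂ))⁻¹ • T ^ i) (NormedSpace.exp T) :=
    NormedSpace.exp_series_hasSum_exp' (𝕂 := ℂ) T
  have h2 : HasSum (fun i : ℕ => ((i.factorial : ℂ))⁻¹ • S ^ i) (NormedSpace.exp S) :=
    NormedSpace.exp_series_hasSum_exp' (𝕂 := ℂ) S
  have h3 := (ContinuousLinearMap.apply ℂ H (J x)).hasSum h1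
  have h4 := J.hasSum ((ContinuousLinearMap.apply ℂ Y x).hasSum h2)
  refine h4.unique ?_
  have h5 : (fun i : ℕ => J ((ContinuousLinearMap.apply ℂ Y x)
      (((i.factorial : ℂ))⁻¹ • S ^ i))) =
      fun i : ℕ => (ContinuousLinearMap.apply ℂ H (J x)) (((i.factorial : ℂ))⁻¹ • T ^ i) := by
    funext i
    change J (((i.factorial : ℂ))⁻¹ • ((S ^ i) x)) = ((i.factorial : ℂ))⁻¹ • (T ^ i) (J x)
    rw [map_smul, J_pow hJS]
  rw [h5]
  exact h3

omit [CompleteSpace H] [CompleteSpace Y] in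
theorem isQuasinilpotent_of_J (hJ : ∀ x, ‖J x‖ = ‖x‖) (hJS : ∀ x, J (S x) = T (J x))
    (h : ∀ ε : ℝ, 0 < ε → ∃ C, 0 ≤ C ∧ ∀ k, ‖T ^ k‖ ≤ C * ε ^ k) : IsQuasinilpotent S := by
  refine tendsto_root (fun k => norm_nonneg _) fun ε hε => ?_
  obtain ⟨C, hC, hCk⟩ := h ε hε
  exact ⟨C, hC, fun k => (norm_pow_le_of_J hJ hJS k).trans (hCk k)⟩

theorem norm_exp_le_one (hJ : ∀ x, ‖J x‖ = ‖x‖) (hJS : ∀ x, J (S x) = T (J x))
    (hJy : ∀ x, J x ∈ XX T y) {L : H →L[ℂ] H} (hL : ∀ x, ‖L x‖ ≤ ‖x‖)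
    (h : ∀ k : ℕ, NormedSpace.exp T ((T ^ k) y) = L ((T ^ k) y)) :
    ‖NormedSpace.exp S‖ ≤ 1 := by
  refine ContinuousLinearMap.opNorm_le_bound _ zero_le_one fun x => ?_
  have h1 : XX T y ≤ LinearMap.eqLocus (NormedSpace.exp T : H →L[ℂ] H).toLinearMap
      L.toLinearMap := by
    refine XX_le ?_ fun k => h k
    exact isClosed_eq (NormedSpace.exp T : H →L[ℂ] H).continuous L.continuous
  have h2 : NormedSpace.exp T (J x) = L (J x) := h1 (hJy x)
  rw [one_mul, ← hJ, ← hJ x, J_exp hJS, h2]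
  exact hL _

omit [CompleteSpace Y] in
theorem not_isHypercyclic_of_norm_le_one {S : Y →L[ℂ] Y} (hS : ‖S‖ ≤ 1) {v : Y} (hv : v ≠ 0) :
    ¬ IsHypercyclic S := by
  rintro ⟨x, hx⟩
  have hvn : 0 < ‖v‖ := norm_pos_iff.2 hv
  have horb : ∀ n : ℕ, ‖(S ^ n) x‖ ≤ ‖x‖ := by
    intro n
    have h1 : ‖S ^ n‖ ≤ 1 := by
      rcases Nat.eq_zero_or_pos n with rfl | hn
      · rw [pow_zero]; exact ContinuousLinearMap.norm_id_le
      · exact (norm_pow_le' S hn).trans (pow_le_one₀ (norm_nonneg _) hS)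
    calc ‖(S ^ n) x‖ ≤ ‖S ^ n‖ * ‖x‖ := (S ^ n).le_opNorm x
      _ ≤ 1 * ‖x‖ := mul_le_mul_of_nonneg_right h1 (norm_nonneg _)
      _ = _ := one_mul _
  set z : Y := (((‖x‖ + 1) / ‖v‖ : ℝ) : ℂ) • v with hz
  have hzn : ‖z‖ = ‖x‖ + 1 := by
    rw [hz, norm_smul, norm_real, Real.norm_of_nonneg (by positivity)]
    field_simp
  obtain ⟨n, hn⟩ := hx.exists_dist_lt z one_pos
  rw [dist_eq_norm] at hn
  have h2 := norm_sub_norm_le z ((S ^ n) x)
  have h3 := horb n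
  linarith

omit [CompleteSpace H] [CompleteSpace Y] in
theorem isHypercyclic_one_add (hJ : ∀ x, ‖J x‖ = ‖x‖) (hJS : ∀ x, J (S x) = T (J x))
    (hJy : ∀ x, J x ∈ XX T y) {y' : Y} (hy' : J y' = y) {q : ℕ → ℂ[X]} {m : ℕ → ℕ}
    (h : Tendsto (fun l => aeval T ((1 + X) ^ m l - q l) y) atTop (𝓝 0))
    (hq : ∀ (Λ : ℂ[X] →ₗ[ℂ] H) (p : ℂ[X]) (ε : ℝ), 0 < ε →
      ∀ M : ℕ, ∃ l, M ≤ l ∧ ‖Λ (q l) - Λ p‖ < ε) : IsHypercyclic (1 + S) := by
  refine ⟨y', ?_⟩
  rw [Metric.denseRange_iff]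
  intro z ε hε
  set Λ : ℂ[X] →ₗ[ℂ] H :=
    ((ContinuousLinearMap.apply ℂ H y).toLinearMap).comp (aeval T).toLinearMap with hΛ
  have hΛapp : ∀ p, Λ p = aeval T p y := fun p => rfl
  -- approximate `z` by an element of the span
  have hz : J z ∈ closure ((Submodule.span ℂ (range fun k : ℕ => (T ^ k) y) :
      Submodule ℂ H) : Set H) := hJy z
  rw [Metric.mem_closure_iff] at hz
  obtain ⟨w, hw, hzw⟩ := hz (ε / 3) (by positivity)
  have hspan : Submodule.span ℂ (range fun k : ℕ => (T ^ k) y) ≤ LinearMap.range Λ := by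
    rw [Submodule.span_le]
    rintro _ ⟨k, rfl⟩
    refine ⟨X ^ k, ?_⟩
    rw [hΛapp, map_pow, aeval_X]
  obtain ⟨p, rfl⟩ := hspan hw
  obtain ⟨M, hM⟩ := Metric.tendsto_atTop.1 h (ε / 3) (by positivity)
  obtain ⟨l, hl, hlp⟩ := hq Λ p (ε / 3) (by positivity) M
  refine ⟨m l, ?_⟩
  have h1 := hM l hl
  rw [dist_eq_norm, sub_zero, map_sub] at h1
  have h2 : (aeval T ((1 + X : ℂ[X]) ^ m l)) y = ((1 + T) ^ m l) y := by
    rw [map_pow, map_add, map_one, aeval_X]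
  have h3 : ‖((1 + T) ^ m l) y - Λ (q l)‖ < ε / 3 := by
    rw [← h2]
    exact h1
  have h4 : dist z (((1 + S) ^ m l) y') = dist (J z) (((1 + T) ^ m l) y) := by
    rw [dist_eq_norm, dist_eq_norm, ← hJ, map_sub, J_one_add_pow hJS, hy']
  rw [h4]
  calc dist (J z) (((1 + T) ^ m l) y)
      ≤ dist (J z) (Λ p) + dist (Λ p) (Λ (q l)) + dist (Λ (q l)) (((1 + T) ^ m l) y) :=
        dist_triangle4 _ _ _ _
    _ < ε / 3 + ε / 3 + ε / 3 := by
        rw [dist_eq_norm (Λ p), dist_eq_norm (Λ (q l)), norm_sub_rev (Λ p) (Λ (q l)),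
          norm_sub_rev (Λ (q l)) (((1 + T) ^ m l) y)]
        linarith
    _ = ε := by ring

end general

/-- The counterexample. -/
theorem exists_counterexample : ∃ (X : Type) (_ : NormedAddCommGroup X)
    (_ : InnerProductSpace ℂ X) (_ : CompleteSpace X) (S : X →L[ℂ] X),
    IsQuasinilpotent S ∧ IsHypercyclic (1 + S) ∧ ‖NormedSpace.exp S‖ ≤ 1 ∧
      ¬ IsHypercyclic (NormedSpace.exp S) := by
  obtain ⟨T, y, q, m, hy, h1, h2, h3, h4⟩ := main_data
  have hc : CompleteSpace (XX T y) := (isClosed_XX T y).completeSpace_coe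
  let J : XX T y →L[ℂ] H2 := (XX T y).subtypeL
  let S : XX T y →L[ℂ] XX T y :=
    (T.comp (XX T y).subtypeL).codRestrict (XX T y) fun x => T_mem_XX x.2
  have hJ : ∀ x, ‖J x‖ = ‖x‖ := fun x => rfl
  have hJS : ∀ x, J (S x) = T (J x) := fun x => rfl
  have hJy : ∀ x, J x ∈ XX T y := fun x => x.2
  have h5 := norm_exp_le_one hJ hJS hJy norm_Lop_le h2
  refine ⟨XX T y, inferInstance, inferInstance, hc, S, isQuasinilpotent_of_J hJ hJS h1,
    isHypercyclic_one_add hJ hJS hJy (y' := ⟨y, mem_XX⟩) rfl h3 h4, h5,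
    not_isHypercyclic_of_norm_le_one h5 (v := (⟨y, mem_XX⟩ : XX T y)) ?_⟩
  intro h
  exact hy (congrArg Subtype.val h)

end Pool.Agent.MP_4abaeb_an
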