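import Pool.Agent.Lib.MP_4abaeb_an.Density

/-!
# Formal exponential sums
-/

open Complex Filter Set
open scoped Topology ENNReal

noncomputable section

namespace Pool.Agent.MP_4abaeb_an

/-- The basic kernels. -/
def ker (n j : ℕ) (μ : ℂ) : ℂ := μ ^ j * cexp (n * μ)

/-- Pairing of a formal exponential sum with a function of the frequency. -/
def pr (h : ℂ → ℂ) : (ℂ →₀ ℂ) →ₗ[ℂ] ℂ := Finsupp.linearCombination ℂ h

/-- Multiplication of a formal exponential sum by a function of the frequency. -/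
def ml (a : ℂ → ℂ) : (ℂ →₀ ℂ) →ₗ[ℂ] (ℂ →₀ ℂ) :=
  Finsupp.linearCombination ℂ fun μ => Finsupp.single μ (a μ)

theorem pr_apply (h : ℂ → ℂ) (G : ℂ →₀ ℂ) : pr h G = ∑ μ ∈ G.support, G μ * h μ := by
  rw [pr, Finsupp.linearCombination_apply, Finsupp.sum]
  simp only [smul_eq_mul]

theorem ml_apply (a : ℂ → ℂ) (G : ℂ →₀ ℂ) (μ : ℂ) : ml a G μ = G μ * a μ := by
  rw [ml, Finsupp.linearCombination_apply, Finsupp.sum, Finsupp.finsetSum_apply]
  simp only [Finsupp.smul_apply, smul_eq_mul, Finsupp.single_apply]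
  by_cases h : μ ∈ G.support
  · rw [Finset.sum_eq_single μ]
    · simp
    · intro b _ hb; simp [hb]
    · intro h1; exact absurd h h1
  · rw [Finset.sum_eq_zero]
    · rw [Finsupp.notMem_support_iff.1 h, zero_mul]
    · intro b hb
      have : b ≠ μ := by rintro rfl; exact h hb
      simp [this]

theorem support_ml (a : ℂ → ℂ) (G : ℂ →₀ ℂ) : (ml a G).support ⊆ G.support := by
  intro μ hμ
  rw [Finsupp.mem_support_iff, ml_apply] at hμ
  rw [Finsupp.mem_support_iff]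
  exact left_ne_zero_of_mul hμ

theorem pr_ml (h a : ℂ → ℂ) (G : ℂ →₀ ℂ) : pr h (ml a G) = pr (fun μ => a μ * h μ) G := by
  have : (pr h).comp (ml a) = pr fun μ => a μ * h μ := by
    ext μ
    simp [pr, ml]
  exact LinearMap.congr_fun this G

theorem ml_ml (a b : ℂ → ℂ) (G : ℂ →₀ ℂ) : ml a (ml b G) = ml (fun μ => a μ * b μ) G := by
  ext μ
  rw [ml_apply, ml_apply, ml_apply]; ring

theorem ml_congr {a b : ℂ → ℂ} {G : ℂ →₀ ℂ} (h : ∀ μ ∈ G.support, a μ = b μ) :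
    ml a G = ml b G := by
  ext μ
  rw [ml_apply, ml_apply]
  by_cases h1 : μ ∈ G.support
  · rw [h μ h1]
  · rw [Finsupp.notMem_support_iff.1 h1, zero_mul, zero_mul]

theorem ml_one (G : ℂ →₀ ℂ) : ml (fun _ => 1) G = G := by
  ext μ; rw [ml_apply, mul_one]

theorem ml_sub_fun (a b : ℂ → ℂ) (G : ℂ →₀ ℂ) :
    ml (fun μ => a μ - b μ) G = ml a G - ml b G := by
  ext μ
  rw [Finsupp.sub_apply, ml_apply, ml_apply, ml_apply]; ring

/-- A formal exponential sum is small. -/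
def Sm (ρ δ : ℝ) (G : ℂ →₀ ℂ) : Prop := ∀ n j : ℕ, ((n : ℝ) + 1) * ‖pr (ker n j) G‖ ≤ δ * ρ ^ j

theorem Sm.add {ρ δ δ' : ℝ} {G G' : ℂ →₀ ℂ} (h : Sm ρ δ G) (h' : Sm ρ δ' G') :
    Sm ρ (δ + δ') (G + G') := by
  intro n j
  rw [map_add]
  calc ((n : ℝ) + 1) * ‖pr (ker n j) G + pr (ker n j) G'‖
      ≤ ((n : ℝ) + 1) * (‖pr (ker n j) G‖ + ‖pr (ker n j) G'‖) :=
        mul_le_mul_of_nonneg_left (norm_add_le _ _) (by positivity)
    _ ≤ _ := by rw [mul_add, add_mul δ]; exact add_le_add (h n j) (h' n j)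

theorem Sm.neg {ρ δ : ℝ} {G : ℂ →₀ ℂ} (h : Sm ρ δ G) : Sm ρ δ (-G) := by
  intro n j
  rw [map_neg, norm_neg]
  exact h n j

theorem Sm.sub {ρ δ δ' : ℝ} {G G' : ℂ →₀ ℂ} (h : Sm ρ δ G) (h' : Sm ρ δ' G') :
    Sm ρ (δ + δ') (G - G') := by
  rw [sub_eq_add_neg]; exact h.add h'.neg

theorem Sm.mono {ρ δ δ' : ℝ} {G : ℂ →₀ ℂ} (h : Sm ρ δ G) (hρ : 0 ≤ ρ) (hδ : δ ≤ δ') :
    Sm ρ δ' G := fun n j =>
  (h n j).trans (mul_le_mul_of_nonneg_right hδ (pow_nonneg hρ j))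

theorem vec_linearCombination {ρ : ℝ} (hρ : 0 < ρ) {G : ℂ →₀ ℂ} (hG : (G.support : Set ℂ) ⊆ Om ρ)
    (n j : ℕ) : (Finsupp.linearCombination ℂ (vec ρ) G) (n, j) =
      (n + 1) * pr (ker n j) G / (ρ : ℂ) ^ j := by
  rw [Finsupp.linearCombination_apply, Finsupp.sum, lp.coeFn_sum, Finset.sum_apply, pr_apply,
    Finset.mul_sum, Finset.sum_div]
  refine Finset.sum_congr rfl fun μ hμ => ?_
  rw [lp.coeFn_smul, Pi.smul_apply, vec_apply hρ (hG hμ), ent, smul_eq_mul, ker]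
  have : (ρ : ℂ) ≠ 0 := by exact_mod_cast hρ.ne'
  rw [div_pow]
  field_simp

/-- Approximation of formal exponential sums. -/
theorem approx {ρ : ℝ} (hρ : 0 < ρ) {U : Set ℂ} (hU : IsOpen U) (hne : U.Nonempty)
    (hUΩ : U ⊆ Om ρ) {G : ℂ →₀ ℂ} (hG : (G.support : Set ℂ) ⊆ Om ρ) {δ : ℝ} (hδ : 0 < δ) :
    ∃ A : ℂ →₀ ℂ, (A.support : Set ℂ) ⊆ U ∧ Sm ρ δ (A - G) := by
  have h1 : Finsupp.linearCombination ℂ (vec ρ) G ∈
      (Submodule.span ℂ (vec ρ '' U)).topologicalClosure := by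
    rw [Finsupp.linearCombination_apply]
    exact Submodule.sum_mem _ fun μ hμ =>
      Submodule.smul_mem _ _ (vec_mem_closure hρ hU hne hUΩ (hG hμ))
  have h2 : Finsupp.linearCombination ℂ (vec ρ) G ∈
      closure ((Submodule.span ℂ (vec ρ '' U) : Submodule ℂ H2) : Set H2) := h1
  rw [Metric.mem_closure_iff] at h2
  obtain ⟨s, hs, hd⟩ := h2 δ hδ
  obtain ⟨A, hA, hAs⟩ := (Finsupp.mem_span_image_iff_linearCombination ℂ).1 hs
  rw [Finsupp.mem_supported] at hA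
  refine ⟨A, hA, fun n j => ?_⟩
  have h3 : ((A - G).support : Set ℂ) ⊆ Om ρ := by
    intro μ hμ
    rcases Finset.mem_union.1 (Finsupp.support_sub hμ) with h | h
    · exact hUΩ (hA h)
    · exact hG h
  have h4 := vec_linearCombination hρ h3 n j
  have h5 : ‖(Finsupp.linearCombination ℂ (vec ρ) (A - G)) (n, j)‖ ≤ δ := by
    refine (lp.norm_apply_le_norm (by norm_num) _ _).trans ?_
    rw [map_sub, hAs, ← dist_eq_norm, dist_comm]
    exact hd.le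
  rw [h4, norm_div, norm_mul, norm_pow, norm_real, Real.norm_of_nonneg hρ.le,
    div_le_iff₀ (pow_pos hρ j)] at h5
  have h6 : ‖(n : ℂ) + 1‖ = (n : ℝ) + 1 := by
    have : ((n : ℂ) + 1) = ((n + 1 : ℝ) : ℂ) := by push_cast; ring
    rw [this, norm_real, Real.norm_of_nonneg (by positivity)]
  rwa [h6] at h5

end Pool.Agent.MP_4abaeb_an
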