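import Pool.Agent.Lib.MP_4abaeb_an.Seq

/-!
# The limit of the formal exponential sums
-/

open Complex Filter Set Polynomial
open scoped Topology ENNReal

noncomputable section

namespace Pool.Agent.MP_4abaeb_an

theorem exists_sm {ρ : ℝ} {G : ℂ →₀ ℂ} (hG : (G.support : Set ℂ) ⊆ Om ρ) :
    ∃ K : ℝ, 0 ≤ K ∧ Sm ρ K G := by
  have hw : ∀ μ : ℂ, ∃ w : ℝ, 0 ≤ w ∧ (μ.re < 0 → ∀ n : ℕ, ((n : ℝ) + 1) * Real.exp μ.re ^ n ≤ w) := by
    intro μ
    by_cases h : μ.re < 0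
    · obtain ⟨w, hw0, hw⟩ := exists_weight h
      exact ⟨w, hw0, fun _ => hw⟩
    · exact ⟨0, le_rfl, fun h' => absurd h' h⟩
  choose w hw0 hw using hw
  refine ⟨∑ μ ∈ G.support, ‖G μ‖ * w μ, Finset.sum_nonneg fun μ _ =>
    mul_nonneg (norm_nonneg _) (hw0 μ), fun n j => ?_⟩
  rw [pr_apply]
  calc ((n : ℝ) + 1) * ‖∑ μ ∈ G.support, G μ * ker n j μ‖
      ≤ ((n : ℝ) + 1) * ∑ μ ∈ G.support, ‖G μ‖ * ‖ker n j μ‖ := by
        apply mul_le_mul_of_nonneg_left _ (by positivity)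
        refine (norm_sum_le _ _).trans (le_of_eq ?_)
        exact Finset.sum_congr rfl fun i _ => by rw [norm_mul]
    _ = ∑ μ ∈ G.support, ‖G μ‖ * (((n : ℝ) + 1) * Real.exp μ.re ^ n) * ‖μ‖ ^ j := by
        rw [Finset.mul_sum]
        exact Finset.sum_congr rfl fun i _ => by rw [norm_ker]; ring
    _ ≤ ∑ μ ∈ G.support, ‖G μ‖ * w μ * ρ ^ j := by
        refine Finset.sum_le_sum fun μ hμ => ?_
        have h3 := hw μ (hG hμ).1 n
        have h4 : ‖μ‖ ^ j ≤ ρ ^ j := pow_le_pow_left₀ (norm_nonneg _) (hG hμ).2.le j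
        have h5 := hw0 μ
        gcongr
    _ = (∑ μ ∈ G.support, ‖G μ‖ * w μ) * ρ ^ j := by rw [Finset.sum_mul]

/-- Sequences with geometrically decreasing increments. -/
theorem tail_lemma {a : ℕ → ℂ} {l : ℂ} {c : ℝ} {k : ℕ}
    (h : ∀ i, k ≤ i → ‖a (i + 1) - a i‖ ≤ c * (1 / 2) ^ i) (hl : Tendsto a atTop (𝓝 l)) :
    ‖l - a k‖ ≤ 2 * c * (1 / 2) ^ k := by
  have h1 : ∀ n, dist (a (n + k)) (a (n + 1 + k)) ≤ (2 * c * (1 / 2) ^ k) / 2 / 2 ^ n := by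
    intro n
    have h2 := h (n + k) (Nat.le_add_left k n)
    rw [dist_comm, dist_eq_norm]
    have h3 : n + 1 + k = n + k + 1 := by ring
    rw [h3]
    refine h2.trans (le_of_eq ?_)
    rw [pow_add, one_div, inv_pow, inv_pow]
    field_simp
  have h4 : Tendsto (fun n => a (n + k)) atTop (𝓝 l) := (tendsto_add_atTop_iff_nat k).2 hl
  have h5 := dist_le_of_le_geometric_two_of_tendsto₀ (f := fun n => a (n + k)) h1 h4
  simpa [dist_comm, dist_eq_norm] using h5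

theorem exists_lim {a : ℕ → ℂ} {c : ℝ} (h : ∀ i, ‖a (i + 1) - a i‖ ≤ c * (1 / 2) ^ i) :
    ∃ l, Tendsto a atTop (𝓝 l) := by
  apply cauchySeq_tendsto_of_complete
  apply cauchySeq_of_le_geometric_two (C := 2 * c)
  intro n
  rw [dist_comm, dist_eq_norm]
  refine (h n).trans (le_of_eq ?_)
  rw [one_div, inv_pow]
  field_simp

/-- The combination of a double sequence with a polynomial. -/
def cmb (P : ℂ[X]) (f : ℕ → ℕ → ℂ) (n j : ℕ) : ℂ := ∑ i ∈ P.support, P.coeff i * f n (j + i)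

/-- The limit double sequence. -/
theorem exists_limit (q : ℕ → ℂ[X]) : ∃ (G : ℕ → ℂ →₀ ℂ) (m : ℕ → ℕ) (f : ℕ → ℕ → ℂ),
    f 0 0 ≠ 0 ∧
    (∀ n j, Tendsto (fun k => pr (ker n j) (G k)) atTop (𝓝 (f n j))) ∧
    (∀ k n j : ℕ, ((n : ℝ) + 1) * ‖f n j - pr (ker n j) (G k)‖ ≤ 2 * (1 / 2) ^ k * rr k ^ j) ∧
    (∀ k, ∃ K, 0 ≤ K ∧ ∀ n j : ℕ, ((n : ℝ) + 1) * ‖f n j‖ ≤ K * rr k ^ j) ∧
    ∀ l n j : ℕ, ((n : ℝ) + 1) * ‖cmb ((1 + X) ^ m l - q l) f n j‖ ≤ 2 * (1 / 2) ^ l * rr l ^ j := by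
  obtain ⟨G, m, hG0, hG, h1, h2, h3⟩ := exists_seq q
  have hinc : ∀ k i, k ≤ i → ∀ n j, ‖pr (ker n j) (G (i + 1)) - pr (ker n j) (G i)‖ ≤
      (rr k ^ j / ((n : ℝ) + 1)) * (1 / 2) ^ i := by
    intro k i hki n j
    rw [← map_sub]
    have h4 := h1 i n j
    have h5 : rr i ^ j ≤ rr k ^ j := pow_le_pow_left₀ (rr_pos i).le (rr_anti hki) j
    have h6 : (0 : ℝ) < (n : ℝ) + 1 := by positivity
    have h7 : ((n : ℝ) + 1) * ‖pr (ker n j) (G (i + 1) - G i)‖ ≤ (1 / 2) ^ i * rr k ^ j :=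
      h4.trans (mul_le_mul_of_nonneg_left h5 (by positivity))
    rw [div_mul_eq_mul_div, le_div_iff₀ h6]
    linarith
  have hlim : ∀ n j, ∃ l, Tendsto (fun k => pr (ker n j) (G k)) atTop (𝓝 l) := fun n j =>
    exists_lim (fun i => hinc 0 i (Nat.zero_le i) n j)
  choose f hf using hlim
  have hL2 : ∀ k n j : ℕ, ((n : ℝ) + 1) * ‖f n j - pr (ker n j) (G k)‖ ≤
      2 * (1 / 2) ^ k * rr k ^ j := by
    intro k n j
    have h4 := tail_lemma (fun i hi => hinc k i hi n j) (hf n j)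
    have h6 : (0 : ℝ) < (n : ℝ) + 1 := by positivity
    calc ((n : ℝ) + 1) * ‖f n j - pr (ker n j) (G k)‖
        ≤ ((n : ℝ) + 1) * (2 * (rr k ^ j / ((n : ℝ) + 1)) * (1 / 2) ^ k) :=
          mul_le_mul_of_nonneg_left h4 h6.le
      _ = _ := by field_simp
  refine ⟨G, m, f, ?_, hf, hL2, ?_, ?_⟩
  · intro h0
    have h4 := hL2 0 0 0
    rw [h0, hG0] at h4
    simp [G0, pr, ker] at h4
    norm_num at h4
  · intro k
    obtain ⟨K, hK, hKG⟩ := exists_sm (hG k)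
    refine ⟨K + 2, by linarith, fun n j => ?_⟩
    have h4 := hL2 k n j
    have h5 := hKG n j
    have h6 : ‖f n j‖ ≤ ‖f n j - pr (ker n j) (G k)‖ + ‖pr (ker n j) (G k)‖ := by
      have := norm_add_le (f n j - pr (ker n j) (G k)) (pr (ker n j) (G k))
      rwa [sub_add_cancel] at this
    have h7 : (1 / 2 : ℝ) ^ k ≤ 1 := pow_le_one₀ (by norm_num) (by norm_num)
    have h8 : 0 ≤ rr k ^ j := pow_nonneg (rr_pos k).le j
    have h9 : 2 * (1 / 2) ^ k * rr k ^ j ≤ 2 * rr k ^ j :=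
      mul_le_mul_of_nonneg_right (by linarith) h8
    have h10 : (0 : ℝ) < (n : ℝ) + 1 := by positivity
    nlinarith [mul_le_mul_of_nonneg_left h6 h10.le]
  · intro l n j
    set P := (1 + X) ^ m l - q l with hP
    have h4 : Tendsto (fun k => pr (ker n j) (mp P (G k))) atTop (𝓝 (cmb P f n j)) := by
      simp only [pr_mp]
      exact tendsto_finsetSum _ fun i _ => (hf n (j + i)).const_mul _
    have h5 : ∀ i, l + 1 ≤ i → ‖pr (ker n j) (mp P (G (i + 1))) - pr (ker n j) (mp P (G i))‖ ≤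
        (rr l ^ j / ((n : ℝ) + 1)) * (1 / 2) ^ i := by
      intro i hi
      rw [← map_sub, ← map_sub]
      have h6 := h2 i l (by omega) n j
      have h7 : rr i ^ j ≤ rr l ^ j := pow_le_pow_left₀ (rr_pos i).le (rr_anti (by omega)) j
      have h8 : (0 : ℝ) < (n : ℝ) + 1 := by positivity
      have h9 := h6.trans (mul_le_mul_of_nonneg_left h7 (by positivity))
      rw [div_mul_eq_mul_div, le_div_iff₀ h8]
      linarith
    have h6 := tail_lemma h5 h4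
    have h7 := h3 l n j
    have h8 : (0 : ℝ) < (n : ℝ) + 1 := by positivity
    have h9 : ‖cmb P f n j‖ ≤ ‖cmb P f n j - pr (ker n j) (mp P (G (l + 1)))‖ +
        ‖pr (ker n j) (mp P (G (l + 1)))‖ := by
      have := norm_add_le (cmb P f n j - pr (ker n j) (mp P (G (l + 1))))
        (pr (ker n j) (mp P (G (l + 1))))
      rwa [sub_add_cancel] at this
    have h10 : ((n : ℝ) + 1) * ‖cmb P f n j - pr (ker n j) (mp P (G (l + 1)))‖ ≤
        (1 / 2) ^ l * rr l ^ j := by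
      calc ((n : ℝ) + 1) * ‖cmb P f n j - pr (ker n j) (mp P (G (l + 1)))‖
          ≤ ((n : ℝ) + 1) * (2 * (rr l ^ j / ((n : ℝ) + 1)) * (1 / 2) ^ (l + 1)) :=
            mul_le_mul_of_nonneg_left h6 h8.le
        _ = _ := by rw [pow_succ]; field_simp
    nlinarith [mul_le_mul_of_nonneg_left h9 h8.le]

end Pool.Agent.MP_4abaeb_an
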