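import Pool.Agent.Lib.MP_4abaeb_an.Density

/-!
# Weighted shifts on the space of square summable double sequences
-/

open Complex Filter Set
open scoped Topology ENNReal

noncomputable section

namespace Pool.Agent.MP_4abaeb_an

theorem summable_sq (x : H2) : Summable fun p => ‖x p‖ ^ 2 := by
  have h := (lp.memℓp x).summable (by norm_num)
  simpa using h

theorem norm_sq_eq (x : H2) : ‖x‖ ^ 2 = ∑' p, ‖x p‖ ^ 2 := by
  have h := lp.norm_rpow_eq_tsum (p := 2) (by norm_num) x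
  simpa using h

theorem memlp_of_summable_sq {x : ℕ × ℕ → ℂ} (h : Summable fun p => ‖x p‖ ^ 2) : Memℓp x 2 := by
  rw [memℓp_gen_iff (by norm_num)]
  simpa using h

theorem wco_summable (a : ℕ × ℕ → ℂ) (σ : ℕ × ℕ → ℕ × ℕ) (hσ : Function.Injective σ) (C : ℝ)
    (ha : ∀ p, ‖a p‖ ≤ C) (x : H2) : Summable fun p => ‖a p * x (σ p)‖ ^ 2 := by
  refine Summable.of_nonneg_of_le (fun p => by positivity) (fun p => ?_)
    (((summable_sq x).comp_injective hσ).mul_left (C ^ 2))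
  rw [norm_mul, mul_pow]
  exact mul_le_mul_of_nonneg_right (pow_le_pow_left₀ (norm_nonneg _) (ha p) 2) (by positivity)

/-- Weighted composition operators. -/
def wco (a : ℕ × ℕ → ℂ) (σ : ℕ × ℕ → ℕ × ℕ) (hσ : Function.Injective σ) (C : ℝ)
    (ha : ∀ p, ‖a p‖ ≤ C) : H2 →L[ℂ] H2 :=
  LinearMap.mkContinuous
    { toFun := fun x => ⟨fun p => a p * x (σ p), memlp_of_summable_sq (wco_summable a σ hσ C ha x)⟩
      map_add' := fun x y => by
        ext p
        change a p * (x + y) (σ p) = a p * x (σ p) + a p * y (σ p)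
        rw [lp.coeFn_add, Pi.add_apply, mul_add]
      map_smul' := fun c x => by
        ext p
        change a p * (c • x) (σ p) = c * (a p * x (σ p))
        rw [lp.coeFn_smul, Pi.smul_apply, smul_eq_mul]; ring } C fun x => by
    have hC : 0 ≤ C := (norm_nonneg _).trans (ha (0, 0))
    refine abs_le_of_sq_le_sq' ?_ (by positivity) |>.2
    rw [norm_sq_eq, mul_pow, norm_sq_eq x, ← tsum_mul_left]
    calc ∑' p, ‖a p * x (σ p)‖ ^ 2 ≤ ∑' p, C ^ 2 * ‖x (σ p)‖ ^ 2 := by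
          refine (wco_summable a σ hσ C ha x).tsum_le_tsum (fun p => ?_)
            (((summable_sq x).comp_injective hσ).mul_left (C ^ 2))
          rw [norm_mul, mul_pow]
          exact mul_le_mul_of_nonneg_right (pow_le_pow_left₀ (norm_nonneg _) (ha p) 2)
            (by positivity)
      _ ≤ ∑' p, C ^ 2 * ‖x p‖ ^ 2 :=
          tsum_comp_le_tsum_of_inj ((summable_sq x).mul_left (C ^ 2)) (fun p => by positivity) hσ

theorem wco_apply (a : ℕ × ℕ → ℂ) (σ : ℕ × ℕ → ℕ × ℕ) (hσ : Function.Injective σ) (C : ℝ)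
    (ha : ∀ p, ‖a p‖ ≤ C) (x : H2) (p : ℕ × ℕ) : wco a σ hσ C ha x p = a p * x (σ p) := rfl

theorem norm_wco_le (a : ℕ × ℕ → ℂ) (σ : ℕ × ℕ → ℕ × ℕ) (hσ : Function.Injective σ) (C : ℝ)
    (ha : ∀ p, ‖a p‖ ≤ C) : ‖wco a σ hσ C ha‖ ≤ C :=
  LinearMap.mkContinuous_norm_le _ ((norm_nonneg _).trans (ha (0, 0))) _

/-- The shift in the first variable. -/
def Lop : H2 →L[ℂ] H2 :=
  wco (fun _ => 1) (fun p => (p.1 + 1, p.2)) (fun p q h => by
    simp only [Prod.mk.injEq, add_left_inj] at h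
    exact Prod.ext h.1 h.2) 1 (fun _ => by simp)

theorem Lop_apply (x : H2) (n j : ℕ) : Lop x (n, j) = x (n + 1, j) := by
  rw [Lop, wco_apply, one_mul]

theorem norm_Lop_le (x : H2) : ‖Lop x‖ ≤ ‖x‖ := by
  refine (Lop.le_opNorm x).trans ?_
  have h : ‖Lop‖ ≤ 1 := norm_wco_le _ _ _ _ _
  nlinarith [norm_nonneg x]

theorem shift_inj (k : ℕ) : Function.Injective fun p : ℕ × ℕ => (p.1, p.2 + k) := fun p q h => by
  simp only [Prod.mk.injEq, add_left_inj] at h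
  exact Prod.ext h.1 h.2

theorem norm_weight_le {ω : ℕ → ℝ} (h0 : ∀ j, 0 < ω j) (h1 : Antitone ω) (k : ℕ) (p : ℕ × ℕ) :
    ‖(((∏ i ∈ Finset.range k, ω (p.2 + i) : ℝ)) : ℂ)‖ ≤ ∏ i ∈ Finset.range k, ω i := by
  rw [norm_real, Real.norm_of_nonneg (Finset.prod_nonneg fun i _ => (h0 _).le)]
  exact Finset.prod_le_prod (fun i _ => (h0 _).le) fun i _ => h1 (Nat.le_add_left i _)

/-- Powers of the weighted backward shift in the second variable. -/
def Tpow {ω : ℕ → ℝ} (h0 : ∀ j, 0 < ω j) (h1 : Antitone ω) (k : ℕ) : H2 →L[ℂ] H2 :=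
  wco (fun p => ((∏ i ∈ Finset.range k, ω (p.2 + i) : ℝ) : ℂ)) (fun p => (p.1, p.2 + k))
    (shift_inj k) (∏ i ∈ Finset.range k, ω i) (norm_weight_le h0 h1 k)

/-- The weighted backward shift in the second variable. -/
def Top {ω : ℕ → ℝ} (h0 : ∀ j, 0 < ω j) (h1 : Antitone ω) : H2 →L[ℂ] H2 := Tpow h0 h1 1

theorem Top_apply {ω : ℕ → ℝ} (h0 : ∀ j, 0 < ω j) (h1 : Antitone ω) (x : H2) (n j : ℕ) :
    Top h0 h1 x (n, j) = ω j * x (n, j + 1) := by
  rw [Top, Tpow, wco_apply]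
  simp

theorem Top_pow {ω : ℕ → ℝ} (h0 : ∀ j, 0 < ω j) (h1 : Antitone ω) (k : ℕ) :
    Top h0 h1 ^ k = Tpow h0 h1 k := by
  induction k with
  | zero =>
    ext x p
    rw [pow_zero, Tpow, wco_apply]
    simp
  | succ k ih =>
    ext x ⟨n, j⟩
    rw [pow_succ', ih]
    change Top h0 h1 (Tpow h0 h1 k x) (n, j) = _
    rw [Top_apply, Tpow, Tpow, wco_apply, wco_apply, Finset.prod_range_succ']
    simp only [add_zero]
    have e1 : j + 1 + k = j + (k + 1) := by ring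
    have e2 : ∀ i, j + 1 + i = j + (i + 1) := fun i => by ring
    rw [e1]
    simp only [e2]
    push_cast
    ring

theorem norm_Top_pow_le {ω : ℕ → ℝ} (h0 : ∀ j, 0 < ω j) (h1 : Antitone ω) (k : ℕ) :
    ‖Top h0 h1 ^ k‖ ≤ ∏ i ∈ Finset.range k, ω i := by
  rw [Top_pow]
  exact norm_wco_le _ _ _ _ _

theorem prod_le_geometric {ω : ℕ → ℝ} (h0 : ∀ j, 0 < ω j) (h2 : Tendsto ω atTop (𝓝 0)) {ε : ℝ}
    (hε : 0 < ε) : ∃ C, 0 ≤ C ∧ ∀ k, ∏ i ∈ Finset.range k, ω i ≤ C * ε ^ k := by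
  obtain ⟨N, hN⟩ := eventually_atTop.1 (h2.eventually (gt_mem_nhds hε))
  have hpos : ∀ k, 0 < ∏ i ∈ Finset.range k, ω i := fun k => Finset.prod_pos fun i _ => h0 i
  set C := ∑ k ∈ Finset.range (N + 1), (∏ i ∈ Finset.range k, ω i) / ε ^ k with hC
  have hterm : ∀ k, 0 ≤ (∏ i ∈ Finset.range k, ω i) / ε ^ k := fun k =>
    div_nonneg (hpos k).le (by positivity)
  have hsmall : ∀ k, k ≤ N → ∏ i ∈ Finset.range k, ω i ≤ C * ε ^ k := by
    intro k hk
    have h3 : (∏ i ∈ Finset.range k, ω i) / ε ^ k ≤ C :=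
      Finset.single_le_sum (fun j (_ : j ∈ Finset.range (N + 1)) => hterm j)
        (Finset.mem_range.2 (Nat.lt_succ_of_le hk))
    rwa [div_le_iff₀ (by positivity)] at h3
  refine ⟨C, Finset.sum_nonneg fun k _ => hterm k, fun k => ?_⟩
  rcases le_total k N with hk | hk
  · exact hsmall k hk
  · induction k, hk using Nat.le_induction with
    | base => exact hsmall N le_rfl
    | succ k hk ih =>
      rw [Finset.prod_range_succ, pow_succ, ← mul_assoc]
      exact mul_le_mul ih (hN k hk).le (h0 k).le ((hpos k).le.trans ih)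

theorem tendsto_root {a : ℕ → ℝ} (ha : ∀ k, 0 ≤ a k)
    (h : ∀ ε : ℝ, 0 < ε → ∃ C, 0 ≤ C ∧ ∀ k, a k ≤ C * ε ^ k) :
    Tendsto (fun k : ℕ => a k ^ (1 / (k : ℝ))) atTop (𝓝 0) := by
  rw [Metric.tendsto_atTop]
  intro ε hε
  obtain ⟨C, hC, hCa⟩ := h (ε / 2 / 2) (by positivity)
  have h1 : Tendsto (fun i : ℕ => C * (1 / 2 : ℝ) ^ i) atTop (𝓝 (C * 0)) :=
    (tendsto_pow_atTop_nhds_zero_of_lt_one (by norm_num) (by norm_num)).const_mul C
  rw [mul_zero] at h1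
  obtain ⟨N, hN⟩ := eventually_atTop.1 (h1.eventually (gt_mem_nhds one_pos))
  refine ⟨max N 1, fun k hk => ?_⟩
  have hkN : N ≤ k := (le_max_left _ _).trans hk
  have hk1 : 1 ≤ k := (le_max_right _ _).trans hk
  have h2 : a k ≤ (ε / 2) ^ k := by
    calc a k ≤ C * (ε / 2 / 2) ^ k := hCa k
      _ = (C * (1 / 2) ^ k) * (ε / 2) ^ k := by
          rw [div_eq_mul_one_div (ε / 2) 2, mul_pow]; ring
      _ ≤ 1 * (ε / 2) ^ k := mul_le_mul_of_nonneg_right (hN k hkN).le (by positivity)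
      _ = _ := one_mul _
  have h3 : a k ^ (1 / (k : ℝ)) ≤ ε / 2 := by
    calc a k ^ (1 / (k : ℝ)) ≤ ((ε / 2) ^ k) ^ (1 / (k : ℝ)) :=
          Real.rpow_le_rpow (ha k) h2 (by positivity)
      _ = ε / 2 := by
          rw [one_div]
          exact Real.pow_rpow_inv_natCast (by positivity) (by omega)
  rw [Real.dist_eq, sub_zero, abs_of_nonneg (Real.rpow_nonneg (ha k) _)]
  linarith

end Pool.Agent.MP_4abaeb_an
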