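import Pool.Agent.Lib.MP_4abaeb_an.Step

/-!
# The sequence of formal exponential sums
-/

open Complex Filter Set Polynomial
open scoped Topology ENNReal

noncomputable section

namespace Pool.Agent.MP_4abaeb_an

/-- The radii. -/
def rr (k : ℕ) : ℝ := 1 / ((k : ℝ) + 1)

theorem rr_pos (k : ℕ) : 0 < rr k := by unfold rr; positivity

theorem rr_anti : Antitone rr := by
  intro k l h
  unfold rr
  have : (k : ℝ) ≤ l := by exact_mod_cast h
  gcongr

theorem rr_le_one (k : ℕ) : rr k ≤ 1 := by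
  have := rr_anti (Nat.zero_le k)
  simpa [rr] using this

theorem tendsto_rr : Tendsto rr atTop (𝓝 0) := tendsto_one_div_add_atTop_nhds_zero_nat

/-- One step of the construction. -/
theorem step_list (k : ℕ) (G : ℂ →₀ ℂ) (L : List ℂ[X]) (q : ℂ[X])
    (hG : (G.support : Set ℂ) ⊆ Om (rr k)) :
    ∃ s : (ℂ →₀ ℂ) × ℕ, (s.1.support : Set ℂ) ⊆ Om (rr (k + 1)) ∧
      Sm (rr k) ((1 / 2) ^ k) (s.1 - G) ∧ (∀ P ∈ L, Sm (rr k) ((1 / 2) ^ k) (mp P (s.1 - G))) ∧
      Sm (rr k) ((1 / 2) ^ k) (mp ((1 + X) ^ s.2 - q) s.1) := by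
  set S := (L.map fun P => pa P (rr k)).sum with hS
  have hS0 : 0 ≤ S := List.sum_nonneg (by
    intro x hx
    obtain ⟨P, -, rfl⟩ := List.mem_map.1 hx
    exact pa_nonneg P (rr_pos k).le)
  have hSP : ∀ P ∈ L, pa P (rr k) ≤ S := by
    intro P hP
    refine List.single_le_sum ?_ _ (List.mem_map.2 ⟨P, hP, rfl⟩)
    intro x hx
    obtain ⟨P', -, rfl⟩ := List.mem_map.1 hx
    exact pa_nonneg P' (rr_pos k).le
  set δ := (1 / 2 : ℝ) ^ k / (1 + S) with hδ
  have hδ0 : 0 < δ := by positivity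
  have hδ1 : δ * (1 + S) = (1 / 2) ^ k := by rw [hδ]; field_simp
  have hδ2 : δ ≤ (1 / 2) ^ k := by nlinarith
  obtain ⟨n, G', h1, h2, h3⟩ := step (rr_pos k) (rr_pos (k + 1)) (rr_anti (Nat.le_succ k)) hG q hδ0
  refine ⟨(G', n), h1, h2.mono (rr_pos k).le hδ2, fun P hP => (h2.mp P).mono (rr_pos k).le ?_,
    h3.mono (rr_pos k).le hδ2⟩
  have := hSP P hP
  nlinarith [mul_le_mul_of_nonneg_left this hδ0.le]

/-- The first formal exponential sum. -/
def G0 : ℂ →₀ ℂ := Finsupp.single (-(1 / 2)) 10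

theorem G0_supp : (G0.support : Set ℂ) ⊆ Om (rr 0) := by
  intro μ hμ
  have h1 : μ = -(1 / 2) := by
    have := Finsupp.support_single_subset hμ
    simpa using this
  rw [h1]
  constructor
  · simp
  · simp [rr]; norm_num

/-- The sequence of formal exponential sums. -/
theorem exists_seq (q : ℕ → ℂ[X]) : ∃ (G : ℕ → ℂ →₀ ℂ) (m : ℕ → ℕ), G 0 = G0 ∧
    (∀ k, ((G k).support : Set ℂ) ⊆ Om (rr k)) ∧
    (∀ k, Sm (rr k) ((1 / 2) ^ k) (G (k + 1) - G k)) ∧
    (∀ k, ∀ l < k, Sm (rr k) ((1 / 2) ^ k) (mp ((1 + X) ^ m l - q l) (G (k + 1) - G k))) ∧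
    ∀ k, Sm (rr k) ((1 / 2) ^ k) (mp ((1 + X) ^ m k - q k) (G (k + 1))) := by
  choose f hf1 hf2 hf3 hf4 using fun (k : ℕ) (s : (ℂ →₀ ℂ) × List ℂ[X])
    (h : (s.1.support : Set ℂ) ⊆ Om (rr k)) => step_list k s.1 s.2 (q k) h
  classical
  let nx : ℕ → (ℂ →₀ ℂ) × List ℂ[X] → (ℂ →₀ ℂ) × List ℂ[X] := fun k s =>
    if h : (s.1.support : Set ℂ) ⊆ Om (rr k) then
      ((f k s h).1, ((1 + X) ^ (f k s h).2 - q k) :: s.2) else s
  let st : ℕ → (ℂ →₀ ℂ) × List ℂ[X] := fun k => Nat.rec (G0, []) (fun k s => nx k s) k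
  have hst0 : st 0 = (G0, []) := rfl
  have hsts : ∀ k, st (k + 1) = nx k (st k) := fun k => rfl
  have hgood : ∀ k, ((st k).1.support : Set ℂ) ⊆ Om (rr k) := by
    intro k
    induction k with
    | zero => exact G0_supp
    | succ k ih =>
      rw [hsts]
      simp only [nx, dif_pos ih]
      exact hf1 k (st k) ih
  have hst1 : ∀ k, (st (k + 1)).1 = (f k (st k) (hgood k)).1 := by
    intro k
    rw [hsts]
    simp only [nx, dif_pos (hgood k)]
  have hst2 : ∀ k, (st (k + 1)).2 = ((1 + X) ^ (f k (st k) (hgood k)).2 - q k) :: (st k).2 := by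
    intro k
    rw [hsts]
    simp only [nx, dif_pos (hgood k)]
  have hmem : ∀ k, ∀ l < k, ((1 + X) ^ (f l (st l) (hgood l)).2 - q l) ∈ (st k).2 := by
    intro k
    induction k with
    | zero => intro l hl; exact absurd hl (Nat.not_lt_zero l)
    | succ k ih =>
      intro l hl
      rw [hst2]
      rcases Nat.lt_succ_iff_lt_or_eq.1 hl with h | h
      · exact List.mem_cons_of_mem _ (ih l h)
      · subst h; exact List.mem_cons_self
  refine ⟨fun k => (st k).1, fun k => (f k (st k) (hgood k)).2, rfl, hgood, fun k => ?_,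
    fun k l hl => ?_, fun k => ?_⟩
  · simp only
    rw [hst1]
    exact hf2 k (st k) (hgood k)
  · simp only
    rw [hst1]
    exact hf3 k (st k) (hgood k) _ (hmem k l hl)
  · simp only
    rw [hst1]
    exact hf4 k (st k) (hgood k)

end Pool.Agent.MP_4abaeb_an
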