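import Pool.Agent.Lib.MP_4abaeb_an.Formal

/-!
# The basic approximation step
-/

open Complex Filter Set Polynomial
open scoped Topology ENNReal

noncomputable section

namespace Pool.Agent.MP_4abaeb_an

/-- Multiplication by a polynomial. -/
def mp (q : ℂ[X]) : (ℂ →₀ ℂ) →ₗ[ℂ] (ℂ →₀ ℂ) := ml fun μ => q.eval μ

/-- The majorant of a polynomial. -/
def pa (q : ℂ[X]) (ρ : ℝ) : ℝ := ∑ i ∈ q.support, ‖q.coeff i‖ * ρ ^ i

theorem pa_nonneg (q : ℂ[X]) {ρ : ℝ} (hρ : 0 ≤ ρ) : 0 ≤ pa q ρ :=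
  Finset.sum_nonneg fun i _ => by positivity

theorem pr_mp (q : ℂ[X]) (n j : ℕ) (G : ℂ →₀ ℂ) :
    pr (ker n j) (mp q G) = ∑ i ∈ q.support, q.coeff i * pr (ker n (j + i)) G := by
  rw [mp, pr_ml, pr_apply]
  simp only [pr_apply, Finset.mul_sum]
  rw [Finset.sum_comm]
  refine Finset.sum_congr rfl fun μ _ => ?_
  rw [Polynomial.eval_eq_sum, Polynomial.sum_def, Finset.sum_mul, Finset.mul_sum]
  refine Finset.sum_congr rfl fun i _ => ?_
  rw [ker, ker, pow_add]; ring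

theorem Sm.mp {ρ δ : ℝ} {G : ℂ →₀ ℂ} (h : Sm ρ δ G) (q : ℂ[X]) :
    Sm ρ (δ * pa q ρ) (mp q G) := by
  intro n j
  rw [pr_mp]
  calc ((n : ℝ) + 1) * ‖∑ i ∈ q.support, q.coeff i * pr (ker n (j + i)) G‖
      ≤ ((n : ℝ) + 1) * ∑ i ∈ q.support, ‖q.coeff i‖ * ‖pr (ker n (j + i)) G‖ := by
        apply mul_le_mul_of_nonneg_left _ (by positivity)
        refine (norm_sum_le _ _).trans (le_of_eq ?_)
        exact Finset.sum_congr rfl fun i _ => norm_mul _ _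
    _ = ∑ i ∈ q.support, ‖q.coeff i‖ * (((n : ℝ) + 1) * ‖pr (ker n (j + i)) G‖) := by
        rw [Finset.mul_sum]
        exact Finset.sum_congr rfl fun i _ => by ring
    _ ≤ ∑ i ∈ q.support, ‖q.coeff i‖ * (δ * ρ ^ (j + i)) :=
        Finset.sum_le_sum fun i _ => mul_le_mul_of_nonneg_left (h n (j + i)) (norm_nonneg _)
    _ = δ * pa q ρ * ρ ^ j := by
        rw [pa, Finset.mul_sum, Finset.sum_mul]
        exact Finset.sum_congr rfl fun i _ => by rw [pow_add]; ring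

theorem exists_weight {μ : ℂ} (h : μ.re < 0) :
    ∃ w : ℝ, 0 ≤ w ∧ ∀ n : ℕ, ((n : ℝ) + 1) * Real.exp μ.re ^ n ≤ w := by
  have h1 := summable_majorant (Real.exp_pos μ.re).le (exp_re_lt_one h) le_rfl zero_lt_one
  refine ⟨∑' p : ℕ × ℕ, (((p.1 : ℝ) + 1) * Real.exp μ.re ^ p.1) * 0 ^ p.2,
    tsum_nonneg fun p => by positivity, fun n => ?_⟩
  have h2 := h1.le_tsum (n, 0) (fun p _ => by positivity)
  simpa using h2

theorem norm_ker (n j : ℕ) (μ : ℂ) : ‖ker n j μ‖ = ‖μ‖ ^ j * Real.exp μ.re ^ n := by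
  rw [ker, norm_mul, norm_pow, Complex.norm_exp, ← Real.exp_nat_mul]
  congr 2
  have : ((n : ℂ) * μ) = (((n : ℝ) : ℂ) * μ) := by push_cast; ring
  rw [this, re_ofReal_mul]

theorem eventually_sm {ρ : ℝ} (hρ : 0 < ρ) {G : ℂ →₀ ℂ} (hG : (G.support : Set ℂ) ⊆ Om ρ)
    (a : ℕ → ℂ → ℂ) (ha : ∀ μ ∈ G.support, Tendsto (fun k => a k μ) atTop (𝓝 0)) {δ : ℝ}
    (hδ : 0 < δ) : ∀ᶠ k in atTop, Sm ρ δ (ml (a k) G) := by
  have hw : ∀ μ : ℂ, ∃ w : ℝ, 0 ≤ w ∧ (μ.re < 0 → ∀ n : ℕ, ((n : ℝ) + 1) * Real.exp μ.re ^ n ≤ w) := by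
    intro μ
    by_cases h : μ.re < 0
    · obtain ⟨w, hw0, hw⟩ := exists_weight h
      exact ⟨w, hw0, fun _ => hw⟩
    · exact ⟨0, le_rfl, fun h' => absurd h' h⟩
  choose w hw0 hw using hw
  have h1 : Tendsto (fun k => ∑ μ ∈ G.support, ‖G μ‖ * ‖a k μ‖ * w μ) atTop (𝓝 0) := by
    have h2 : Tendsto (fun k => ∑ μ ∈ G.support, ‖G μ‖ * ‖a k μ‖ * w μ) atTop
        (𝓝 (∑ μ ∈ G.support, ‖G μ‖ * ‖(0 : ℂ)‖ * w μ)) :=
      tendsto_finsetSum _ fun μ hμ => ((ha μ hμ).norm.const_mul _).mul_const _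
    simpa using h2
  filter_upwards [h1.eventually (gt_mem_nhds hδ)] with k hk
  intro n j
  rw [pr_ml, pr_apply]
  calc ((n : ℝ) + 1) * ‖∑ μ ∈ G.support, G μ * (a k μ * ker n j μ)‖
      ≤ ((n : ℝ) + 1) * ∑ μ ∈ G.support, ‖G μ‖ * (‖a k μ‖ * ‖ker n j μ‖) := by
        apply mul_le_mul_of_nonneg_left _ (by positivity)
        refine (norm_sum_le _ _).trans (le_of_eq ?_)
        exact Finset.sum_congr rfl fun i _ => by rw [norm_mul, norm_mul]
    _ = ∑ μ ∈ G.support, ‖G μ‖ * ‖a k μ‖ * (((n : ℝ) + 1) * Real.exp μ.re ^ n) * ‖μ‖ ^ j := by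
        rw [Finset.mul_sum]
        exact Finset.sum_congr rfl fun i _ => by rw [norm_ker]; ring
    _ ≤ ∑ μ ∈ G.support, ‖G μ‖ * ‖a k μ‖ * w μ * ρ ^ j := by
        refine Finset.sum_le_sum fun μ hμ => ?_
        have h3 := hw μ (hG hμ).1 n
        have h4 : ‖μ‖ ^ j ≤ ρ ^ j := pow_le_pow_left₀ (norm_nonneg _) (hG hμ).2.le j
        have h5 := hw0 μ
        gcongr
    _ = (∑ μ ∈ G.support, ‖G μ‖ * ‖a k μ‖ * w μ) * ρ ^ j := by rw [Finset.sum_mul]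
    _ ≤ δ * ρ ^ j := mul_le_mul_of_nonneg_right hk.le (by positivity)

/-- Small frequencies at which `1 + μ` has modulus less than one. -/
def Um (r : ℝ) : Set ℂ := Om r ∩ {μ | ‖1 + μ‖ < 1}

/-- Small frequencies at which `1 + μ` has modulus greater than one. -/
def Up (r : ℝ) : Set ℂ := Om r ∩ {μ | 1 < ‖1 + μ‖}

theorem isOpen_Um (r : ℝ) : IsOpen (Um r) :=
  (isOpen_Om r).inter (isOpen_lt (by fun_prop) continuous_const)

theorem isOpen_Up (r : ℝ) : IsOpen (Up r) :=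
  (isOpen_Om r).inter (isOpen_lt continuous_const (by fun_prop))

theorem nonempty_Um {r : ℝ} (hr : 0 < r) : (Um r).Nonempty := by
  set t := min (r / 2) (1 / 2) with ht
  have h1 : 0 < t := lt_min (by linarith) (by norm_num)
  have h2 : t ≤ r / 2 := min_le_left _ _
  have h3 : t ≤ 1 / 2 := min_le_right _ _
  refine ⟨((-t : ℝ) : ℂ), ⟨by simpa using h1, ?_⟩, ?_⟩
  · rw [norm_real, Real.norm_eq_abs, abs_neg, abs_of_pos h1]; linarith
  · change ‖(1 : ℂ) + ((-t : ℝ) : ℂ)‖ < 1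
    have : (1 : ℂ) + ((-t : ℝ) : ℂ) = ((1 - t : ℝ) : ℂ) := by push_cast; ring
    rw [this, norm_real, Real.norm_eq_abs, abs_of_pos (by linarith)]; linarith

theorem nonempty_Up {r : ℝ} (hr : 0 < r) : (Up r).Nonempty := by
  set t := min (r / 4) (1 / 2) with ht
  have h1 : 0 < t := lt_min (by linarith) (by norm_num)
  have h2 : t ≤ r / 4 := min_le_left _ _
  have h3 : t ≤ 1 / 2 := min_le_right _ _
  have h4 : t ^ 2 ≤ t := by nlinarith
  refine ⟨⟨-(t ^ 2 / 4), t⟩, ⟨?_, ?_⟩, ?_⟩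
  · change -(t ^ 2 / 4) < 0
    have : 0 < t ^ 2 := by positivity
    linarith
  · refine lt_of_le_of_lt (norm_le_abs_re_add_abs_im _) ?_
    change |-(t ^ 2 / 4)| + |t| < r
    rw [abs_neg, abs_of_nonneg (by positivity), abs_of_pos h1]
    linarith
  · change 1 < ‖(1 : ℂ) + ⟨-(t ^ 2 / 4), t⟩‖
    rw [← one_lt_sq_iff₀ (norm_nonneg _), Complex.sq_norm, normSq_apply]
    simp only [add_re, one_re, add_im, one_im, zero_add]
    nlinarith [sq_nonneg (t ^ 2)]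

theorem mp_eval (q : ℂ[X]) (G : ℂ →₀ ℂ) : mp q G = ml (fun μ => q.eval μ) G := rfl

/-- The basic approximation step. -/
theorem step {ρ ρ' : ℝ} (hρ : 0 < ρ) (hρ' : 0 < ρ') (hle : ρ' ≤ ρ) {G : ℂ →₀ ℂ}
    (hG : (G.support : Set ℂ) ⊆ Om ρ) (q : ℂ[X]) {δ : ℝ} (hδ : 0 < δ) :
    ∃ (n : ℕ) (G' : ℂ →₀ ℂ), (G'.support : Set ℂ) ⊆ Om ρ' ∧ Sm ρ δ (G' - G) ∧
      Sm ρ δ (mp ((1 + X) ^ n - q) G') := by
  have hsub : Om ρ' ⊆ Om ρ := fun μ hμ => ⟨hμ.1, hμ.2.trans_le hle⟩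
  set Q := pa q ρ with hQ
  have hQ0 : 0 ≤ Q := pa_nonneg q hρ.le
  set η := δ / (4 * (1 + Q)) with hη
  have hη0 : 0 < η := by positivity
  have hη1 : η * (1 + Q) = δ / 4 := by rw [hη]; field_simp
  have hηδ : η ≤ δ / 4 := by nlinarith
  have hηQ : η * Q ≤ δ / 4 := by nlinarith
  obtain ⟨A, hA, hAG⟩ := approx hρ (isOpen_Um ρ') (nonempty_Um hρ')
    (inter_subset_left.trans hsub) hG hη0
  obtain ⟨C, hC, hCG⟩ := approx hρ (isOpen_Up ρ') (nonempty_Up hρ')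
    (inter_subset_left.trans hsub) (G := mp q G)
    (fun μ hμ => hG (support_ml _ _ hμ)) (δ := δ / 4) (by linarith)
  have hAρ : (A.support : Set ℂ) ⊆ Om ρ := fun μ hμ => hsub (hA hμ).1
  have hCρ : (C.support : Set ℂ) ⊆ Om ρ := fun μ hμ => hsub (hC hμ).1
  have e1 := eventually_sm hρ hCρ (fun k μ => ((1 + μ) ^ k)⁻¹) (fun μ hμ => by
    have h1 : 1 < ‖1 + μ‖ := (hC hμ).2
    have h2 : Tendsto (fun k : ℕ => ((1 + μ)⁻¹) ^ k) atTop (𝓝 0) := by
      apply tendsto_pow_atTop_nhds_zero_of_norm_lt_one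
      rw [norm_inv]
      exact inv_lt_one_of_one_lt₀ h1
    simpa using h2) hη0
  have e2 := eventually_sm hρ hAρ (fun k μ => (1 + μ) ^ k) (fun μ hμ =>
    tendsto_pow_atTop_nhds_zero_of_norm_lt_one (hA hμ).2) (δ := δ / 4) (by linarith)
  obtain ⟨n, h1, h2⟩ := (e1.and e2).exists
  set B := ml (fun μ => ((1 + μ) ^ n)⁻¹) C with hB
  refine ⟨n, A + B, ?_, ?_, ?_⟩
  · intro μ hμ
    rcases Finset.mem_union.1 (Finsupp.support_add hμ) with h | h
    · exact (hA h).1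
    · exact (hC (support_ml _ _ h)).1
  · have h3 : A + B - G = (A - G) + B := by abel
    rw [h3]
    exact (hAG.add h1).mono hρ.le (by linarith)
  · have h4 : mp ((1 + X) ^ n - q) (A + B) =
        ml (fun μ => (1 + μ) ^ n) A + (C - mp q G) - mp q (A - G) - mp q B := by
      have h5 : ∀ H : ℂ →₀ ℂ, mp ((1 + X) ^ n - q) H = ml (fun μ => (1 + μ) ^ n) H - mp q H := by
        intro H
        rw [mp_eval, mp_eval, ← ml_sub_fun]
        simp
      have h6 : ml (fun μ => (1 + μ) ^ n) B = C := by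
        rw [hB, ml_ml]
        conv_rhs => rw [← ml_one C]
        apply ml_congr
        intro μ hμ
        apply mul_inv_cancel₀
        apply pow_ne_zero
        intro h7
        have h8 : 1 < ‖1 + μ‖ := (hC hμ).2
        rw [h7, norm_zero] at h8
        linarith
      rw [h5, map_add, h6, map_add, map_sub]
      abel
    rw [h4]
    refine ((((h2.add hCG).sub (hAG.mp q)).sub (h1.mp q))).mono hρ.le ?_
    linarith

end Pool.Agent.MP_4abaeb_an
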