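import Pool.Agent.Lib.MP_4abaeb_an.Data

/-!
# The vector and the weighted shift
-/

open Complex Filter Set Polynomial
open scoped Topology ENNReal

noncomputable section

namespace Pool.Agent.MP_4abaeb_an

/-- Evaluation of a coordinate. -/
def evp (p : ℕ × ℕ) : H2 →L[ℂ] ℂ :=
  LinearMap.mkContinuous
    { toFun := fun x => x p
      map_add' := fun _ _ => rfl
      map_smul' := fun _ _ => rfl } 1 fun x => by
    rw [one_mul]
    exact lp.norm_apply_le_norm (by norm_num) x p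

theorem evp_apply (p : ℕ × ℕ) (x : H2) : evp p x = x p := rfl

theorem summable_D (C : ℝ) : Summable fun p : ℕ × ℕ =>
    (C * (1 / 2) ^ p.2 / ((p.1 : ℝ) + 1)) ^ 2 := by
  have h1 : Summable fun n : ℕ => (1 / ((n : ℝ) + 1)) ^ 2 := by
    have := (summable_nat_add_iff 1).2 (Real.summable_one_div_nat_pow.2 (one_lt_two))
    refine this.congr fun n => ?_
    push_cast
    rw [div_pow, one_pow]
  have h2 : Summable fun j : ℕ => C ^ 2 * (1 / 4 : ℝ) ^ j :=
    (summable_geometric_of_lt_one (by norm_num) (by norm_num)).mul_left _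
  refine (h1.mul_of_nonneg h2 (fun n => by positivity) (fun n => by positivity)).congr fun p => ?_
  have h3 : (1 / 4 : ℝ) ^ p.2 = ((1 / 2) ^ p.2) ^ 2 := by
    rw [← pow_mul, mul_comm, pow_mul]; norm_num
  have h4 : ∀ a b c : ℝ, (1 / a) ^ 2 * (b ^ 2 * c ^ 2) = (b * c / a) ^ 2 := by
    intro a b c; ring
  rw [h3]
  exact h4 _ _ _

theorem norm_cmb_le {f : ℕ → ℕ → ℂ} {K ρ : ℝ} (hf : ∀ n j : ℕ, ((n : ℝ) + 1) * ‖f n j‖ ≤ K * ρ ^ j)
    (P : ℂ[X]) (n j : ℕ) : ((n : ℝ) + 1) * ‖cmb P f n j‖ ≤ K * pa P ρ * ρ ^ j := by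
  rw [cmb]
  calc ((n : ℝ) + 1) * ‖∑ i ∈ P.support, P.coeff i * f n (j + i)‖
      ≤ ((n : ℝ) + 1) * ∑ i ∈ P.support, ‖P.coeff i‖ * ‖f n (j + i)‖ := by
        apply mul_le_mul_of_nonneg_left _ (by positivity)
        refine (norm_sum_le _ _).trans (le_of_eq ?_)
        exact Finset.sum_congr rfl fun i _ => norm_mul _ _
    _ = ∑ i ∈ P.support, ‖P.coeff i‖ * (((n : ℝ) + 1) * ‖f n (j + i)‖) := by
        rw [Finset.mul_sum]
        exact Finset.sum_congr rfl fun i _ => by ring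
    _ ≤ ∑ i ∈ P.support, ‖P.coeff i‖ * (K * ρ ^ (j + i)) :=
        Finset.sum_le_sum fun i _ => mul_le_mul_of_nonneg_left (hf n (j + i)) (norm_nonneg _)
    _ = _ := by
        rw [pa, Finset.mul_sum, Finset.sum_mul]
        exact Finset.sum_congr rfl fun i _ => by rw [pow_add]; ring

theorem main_data : ∃ (T : H2 →L[ℂ] H2) (y : H2) (q : ℕ → ℂ[X]) (m : ℕ → ℕ), y ≠ 0 ∧
    (∀ ε : ℝ, 0 < ε → ∃ C, 0 ≤ C ∧ ∀ k, ‖T ^ k‖ ≤ C * ε ^ k) ∧
    (∀ k : ℕ, NormedSpace.exp T ((T ^ k) y) = Lop ((T ^ k) y)) ∧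
    Tendsto (fun l => aeval T ((1 + X) ^ m l - q l) y) atTop (𝓝 0) ∧
    ∀ (Λ : ℂ[X] →ₗ[ℂ] H2) (p : ℂ[X]) (ε : ℝ), 0 < ε →
    ∀ M : ℕ, ∃ l, M ≤ l ∧ ‖Λ (q l) - Λ p‖ < ε := by
  obtain ⟨q, hq⟩ := exists_poly_seq
  obtain ⟨G, m, f, hf0, hf, hL2, hL3, hL4⟩ := exists_limit q
  choose K hK hKf using hL3
  set P : ℕ → ℂ[X] := fun l => (1 + X) ^ m l - q l with hP
  -- the common bound
  set B : ℕ → ℝ := fun k => 2 + K k + ∑ l ∈ Finset.range k, K k * pa (P l) (rr k) with hB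
  have hBterm : ∀ k l, 0 ≤ K k * pa (P l) (rr k) := fun k l =>
    mul_nonneg (hK k) (pa_nonneg _ (rr_pos k).le)
  have hB0 : ∀ k, 0 ≤ B k := fun k => by
    have := Finset.sum_nonneg fun l (_ : l ∈ Finset.range k) => hBterm k l
    have := hK k
    simp only [hB]; linarith
  have hBf : ∀ k n j : ℕ, ((n : ℝ) + 1) * ‖f n j‖ ≤ B k * rr k ^ j := by
    intro k n j
    refine (hKf k n j).trans (mul_le_mul_of_nonneg_right ?_ (pow_nonneg (rr_pos k).le j))
    have := Finset.sum_nonneg fun l (_ : l ∈ Finset.range k) => hBterm k l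
    simp only [hB]; linarith
  have hBR : ∀ k l n j : ℕ, ((n : ℝ) + 1) * ‖cmb (P l) f n j‖ ≤ B k * rr k ^ j := by
    intro k l n j
    have h8 : 0 ≤ rr k ^ j := pow_nonneg (rr_pos k).le j
    rcases lt_or_ge l k with h | h
    · refine (norm_cmb_le (hKf k) (P l) n j).trans (mul_le_mul_of_nonneg_right ?_ h8)
      have h1 := Finset.single_le_sum (fun l (_ : l ∈ Finset.range k) => hBterm k l)
        (Finset.mem_range.2 h)
      have := hK k
      simp only [hB]; linarith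
    · refine (hL4 l n j).trans ?_
      have h1 : (1 / 2 : ℝ) ^ l ≤ 1 := pow_le_one₀ (by norm_num) (by norm_num)
      have h2 : rr l ^ j ≤ rr k ^ j := pow_le_pow_left₀ (rr_pos l).le (rr_anti h) j
      have h3 : 2 ≤ B k := by
        have := Finset.sum_nonneg fun l (_ : l ∈ Finset.range k) => hBterm k l
        have := hK k
        simp only [hB]; linarith
      have h4 : 0 ≤ rr l ^ j := pow_nonneg (rr_pos l).le j
      calc 2 * (1 / 2) ^ l * rr l ^ j ≤ B k * rr l ^ j :=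
            mul_le_mul_of_nonneg_right (by linarith) h4
        _ ≤ B k * rr k ^ j := mul_le_mul_of_nonneg_left h2 (hB0 k)
  set b : ℕ → ℝ := fun j => ⨅ k, B k * rr k ^ j with hb
  have hterm0 : ∀ j k, 0 ≤ B k * rr k ^ j := fun j k =>
    mul_nonneg (hB0 k) (pow_nonneg (rr_pos k).le j)
  have hbdd : ∀ j, BddBelow (range fun k => B k * rr k ^ j) := fun j =>
    ⟨0, by rintro _ ⟨k, rfl⟩; exact hterm0 j k⟩
  have hb0 : ∀ j, 0 ≤ b j := fun j => le_ciInf fun k => hterm0 j k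
  have hbB : ∀ k j, b j ≤ B k * rr k ^ j := fun k j => ciInf_le (hbdd j) k
  have hbf : ∀ n j : ℕ, ((n : ℝ) + 1) * ‖f n j‖ ≤ b j := fun n j => le_ciInf fun k => hBf k n j
  have hbR : ∀ l n j : ℕ, ((n : ℝ) + 1) * ‖cmb (P l) f n j‖ ≤ b j := fun l n j =>
    le_ciInf fun k => hBR k l n j
  obtain ⟨ω, h0, h1, h2, C, hC, hbC⟩ := exists_weights hb0 fun k => ⟨B k, hB0 k, hbB k⟩
  set β : ℕ → ℝ := fun j => ∏ i ∈ Finset.range j, ω i with hβ
  have hβpos : ∀ j, 0 < β j := fun j => Finset.prod_pos fun i _ => h0 i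
  have hβadd : ∀ j k, β (j + k) = β j * ∏ i ∈ Finset.range k, ω (j + i) := fun j k =>
    Finset.prod_range_add _ _ _
  -- domination
  have hdom : ∀ g : ℕ → ℕ → ℂ, (∀ n j : ℕ, ((n : ℝ) + 1) * ‖g n j‖ ≤ b j) → ∀ p : ℕ × ℕ,
      ‖g p.1 p.2 / (β p.2 : ℂ)‖ ≤ C * (1 / 2) ^ p.2 / ((p.1 : ℝ) + 1) := by
    intro g hg p
    rw [norm_div, norm_real, Real.norm_of_nonneg (hβpos _).le, div_le_iff₀ (hβpos _),
      div_mul_eq_mul_div, le_div_iff₀ (by positivity)]
    have h3 := (hg p.1 p.2).trans (hbC p.2)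
    linarith
  have hmem : ∀ g : ℕ → ℕ → ℂ, (∀ n j : ℕ, ((n : ℝ) + 1) * ‖g n j‖ ≤ b j) →
      Memℓp (fun p : ℕ × ℕ => g p.1 p.2 / (β p.2 : ℂ)) 2 := by
    intro g hg
    apply memlp_of_summable_sq
    refine Summable.of_nonneg_of_le (fun p => by positivity) (fun p => ?_) (summable_D C)
    exact pow_le_pow_left₀ (norm_nonneg _) (hdom g hg p) 2
  set y : H2 := ⟨fun p => f p.1 p.2 / (β p.2 : ℂ), hmem f hbf⟩ with hy
  have hyapp : ∀ n j, y (n, j) = f n j / (β j : ℂ) := fun n j => rfl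
  set T := Top h0 h1 with hT
  have hTpow : ∀ k n j, (T ^ k) y (n, j) = f n (j + k) / (β j : ℂ) := by
    intro k n j
    rw [hT, Top_pow, Tpow, wco_apply, hyapp, hβadd]
    have h3 : (β j : ℂ) ≠ 0 := by exact_mod_cast (hβpos j).ne'
    have h4 : ((∏ i ∈ Finset.range k, ω (j + i) : ℝ) : ℂ) ≠ 0 := by
      exact_mod_cast (Finset.prod_pos fun i _ => h0 (j + i)).ne'
    rw [ofReal_mul]
    field_simp
  have haeval : ∀ (Q : ℂ[X]) n j, (aeval T Q y) (n, j) = cmb Q f n j / (β j : ℂ) := by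
    intro Q n j
    have h3 : aeval T Q y = ∑ i ∈ Q.support, Q.coeff i • (T ^ i) y := by
      rw [aeval_def, eval₂_eq_sum, Polynomial.sum_def, _root_.sum_apply]
      refine Finset.sum_congr rfl fun i _ => ?_
      rw [← Algebra.smul_def]
      rfl
    rw [h3, lp.coeFn_sum, Finset.sum_apply, cmb, Finset.sum_div]
    refine Finset.sum_congr rfl fun i _ => ?_
    rw [lp.coeFn_smul, Pi.smul_apply, hTpow, smul_eq_mul]
    ring
  refine ⟨T, y, q, m, ?_, ?_, ?_, ?_, hq⟩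
  · intro h
    have h3 := hyapp 0 0
    rw [h] at h3
    have h4 : (β 0 : ℂ) ≠ 0 := by exact_mod_cast (hβpos 0).ne'
    have h5 : f 0 0 / (β 0 : ℂ) = 0 := by rw [← h3]; rfl
    rw [div_eq_zero_iff] at h5
    exact h5.elim hf0 h4
  · intro ε hε
    obtain ⟨C', hC', hC'ε⟩ := prod_le_geometric h0 h2 hε
    exact ⟨C', hC', fun k => (norm_Top_pow_le h0 h1 k).trans (hC'ε k)⟩
  · intro k
    ext ⟨n, j⟩
    rw [Lop_apply, hTpow]
    have h3 : HasSum (fun i : ℕ => ((i.factorial : ℂ))⁻¹ • T ^ i) (NormedSpace.exp T) :=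
      NormedSpace.exp_series_hasSum_exp' (𝕂 := ℂ) T
    have h4 := (evp (n, j)).hasSum
      ((ContinuousLinearMap.apply ℂ H2 ((T ^ k) y)).hasSum h3)
    have h5 := (exp_series hf hL2 (fun k => ⟨K k, hK k, hKf k⟩) n (j + k)).div_const (β j : ℂ)
    refine h4.unique ?_
    have h8 : (fun i : ℕ => (evp (n, j)) (((ContinuousLinearMap.apply ℂ H2) ((T ^ k) y))
        ((i.factorial : ℂ)⁻¹ • T ^ i))) =
        fun i : ℕ => ((i.factorial : ℂ))⁻¹ * f n (j + k + i) / (β j : ℂ) := by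
      funext i
      change ((((i.factorial : ℂ))⁻¹ • T ^ i) ((T ^ k) y)) (n, j) = _
      have h6 : ((((i.factorial : ℂ))⁻¹ • T ^ i) ((T ^ k) y)) =
          ((i.factorial : ℂ))⁻¹ • ((T ^ (i + k)) y) := by
        rw [pow_add]; rfl
      rw [h6, lp.coeFn_smul, Pi.smul_apply, hTpow, smul_eq_mul]
      have h7 : j + (i + k) = j + k + i := by ring
      rw [h7]
      ring
    rw [h8]
    exact h5
  · have h3 : Tendsto (fun l => ‖aeval T (P l) y‖ ^ 2) atTop (𝓝 0) := by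
      have h4 : Tendsto (fun l => ∑' p : ℕ × ℕ, ‖(aeval T (P l) y) p‖ ^ 2) atTop
          (𝓝 (∑' _p : ℕ × ℕ, (0 : ℝ))) := by
        refine tendsto_tsum_of_dominated_convergence (summable_D C) (fun p => ?_)
          (Eventually.of_forall fun l p => ?_)
        · obtain ⟨n, j⟩ := p
          have h5 : Tendsto (fun l : ℕ => 2 * (1 / 2 : ℝ) ^ l / β j) atTop (𝓝 0) := by
            have := ((tendsto_pow_atTop_nhds_zero_of_lt_one (r := (1 / 2 : ℝ)) (by norm_num)
              (by norm_num)).const_mul 2).div_const (β j)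
            simpa using this
          have h6 : Tendsto (fun l => ‖(aeval T (P l) y) (n, j)‖) atTop (𝓝 0) := by
            refine squeeze_zero (fun _ => norm_nonneg _) (fun l => ?_) h5
            rw [haeval, norm_div, norm_real, Real.norm_of_nonneg (hβpos _).le]
            apply div_le_div_of_nonneg_right _ (hβpos _).le
            have h7 := hL4 l n j
            have h8 : rr l ^ j ≤ 1 := pow_le_one₀ (rr_pos l).le (rr_le_one l)
            have h9 : (0 : ℝ) ≤ n := by positivity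
            have h10 := norm_nonneg (cmb (P l) f n j)
            have h11 : 0 ≤ 2 * (1 / 2 : ℝ) ^ l := by positivity
            have h12 : 2 * (1 / 2 : ℝ) ^ l * rr l ^ j ≤ 2 * (1 / 2) ^ l * 1 :=
              mul_le_mul_of_nonneg_left h8 h11
            have h13 : ((n : ℝ) + 1) * ‖cmb (P l) f n j‖ ≤ 2 * (1 / 2 : ℝ) ^ l * rr l ^ j := h7
            nlinarith
          have h7 := h6.pow 2
          simpa using h7
        · rw [norm_pow, norm_norm]
          obtain ⟨n, j⟩ := p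
          rw [haeval]
          exact pow_le_pow_left₀ (norm_nonneg _) (hdom (cmb (P l) f) (hbR l) (n, j)) 2
      simp only [← norm_sq_eq, tsum_zero] at h4
      exact h4
    rw [tendsto_zero_iff_norm_tendsto_zero]
    have h4 := h3.sqrt
    simp only [Real.sqrt_sq (norm_nonneg _), Real.sqrt_zero] at h4
    exact h4

end Pool.Agent.MP_4abaeb_an
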